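import Pool.Agent.H17BP.Art
import Pool.Agent.H17BP.Surf

/-!
# E1 ChowC: a curve in a surface, given locally by one equation, is covered by finitely many discs

`Z ⊆ X` is a subcone of the cone of a smooth closed surface, given near every point by one equation `g = 0`, `g` not identically zero.  Then there are
finitely many analytic discs `γ i : closedBall 0 1 → Z` such that every point of `Z` is a multiple of a point `γ i z`, `|z| ≤ 1/2`.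
-/

set_option autoImplicit false

open Topology Filter Metric

noncomputable section

namespace Pool.Agent.E1

open Pool.Agent.H17BP (Surface IsChart LocalEq ResN)

variable {V : Type} [NormedAddCommGroup V] [NormedSpace ℂ V]

/-- the discs over a neighbourhood of a point of the surface -/
theorem discs_near [CompleteSpace V] {X Z : Set V} (hZX : Z ⊆ X) (hZs : ∀ x ∈ Z, ∀ c : ℂ, c ≠ 0 → c • x ∈ Z)
    (hdisc : ∀ (n : ℕ) (g : ℂ × ℂ → ℂ), ResN n g → ∀ W ∈ 𝓝 (0 : ℂ × ℂ),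
      ∃ (r : ℕ) (c : Fin r → ℂ → ℂ × ℂ), (∀ i, AnalyticOnNhd ℂ (c i) (closedBall 0 1)) ∧
      (∀ i, ∀ z ∈ closedBall (0 : ℂ) 1, c i z ∈ W ∧ g (c i z) = 0) ∧
      ∀ᶠ p in 𝓝 (0 : ℂ × ℂ), g p = 0 → ∃ i, ∃ z ∈ closedBall (0 : ℂ) (1 / 2), c i z = p)
    {σ : ℂ × ℂ → V} {τ : V → ℂ × ℂ} {g : ℂ × ℂ → ℂ} (hσ : IsChart X σ τ) (hg : LocalEq Z σ g) (hne : ¬ ∀ᶠ p in 𝓝 (0 : ℂ × ℂ), g p = 0) :
    ∃ T : Set (ℂ → V), T.Finite ∧ (∀ γ ∈ T, AnalyticOnNhd ℂ γ (closedBall 0 1) ∧ ∀ z ∈ closedBall (0 : ℂ) 1, γ z ∈ Z) ∧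
      ∀ᶠ y in 𝓝 (σ 0), y ∈ Z → ∃ γ ∈ T, ∃ z ∈ closedBall (0 : ℂ) (1 / 2), ∃ c : ℂ, c ≠ 0 ∧ γ z = c • y := by
  obtain ⟨n, hn⟩ := Pool.Agent.H17BP.exists_resN hg.1 hne
  have hW : {p : ℂ × ℂ | AnalyticAt ℂ σ p ∧ (σ p ∈ Z ↔ g p = 0)} ∈ 𝓝 (0 : ℂ × ℂ) :=
    hσ.σ_an.eventually_analyticAt.and hg.2
  obtain ⟨r, c, hc1, hc2, hc3⟩ := hdisc n g hn _ hW
  have hτ0 : τ (σ 0) = 0 := hσ.left.self_of_nhds
  have hτ : Tendsto τ (𝓝 (σ 0)) (𝓝 0) := by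
    have h1 := hσ.τ_an.continuousAt.tendsto
    rwa [hτ0] at h1
  refine ⟨Set.range fun i => σ ∘ c i, Set.finite_range _, ?_, ?_⟩
  · rintro γ ⟨i, rfl⟩
    refine ⟨fun z hz => ?_, fun z hz => ?_⟩
    · exact AnalyticAt.comp (hc2 i z hz).1.1 (hc1 i z hz)
    · exact (hc2 i z hz).1.2.2 (hc2 i z hz).2
  · filter_upwards [hσ.right, hτ.eventually hc3, hτ.eventually hg.2] with y h1 h2 h3 hy
    obtain ⟨a, ha, hya⟩ := h1 (hZX hy)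
    have h4 : σ (τ y) = a⁻¹ • y := by
      conv_rhs => rw [hya]
      rw [smul_smul, inv_mul_cancel₀ ha, one_smul]
    have h5 : σ (τ y) ∈ Z := by
      rw [h4]
      exact hZs y hy _ (inv_ne_zero ha)
    obtain ⟨i, z, hz, hcz⟩ := h2 (h3.1 h5)
    refine ⟨_, ⟨i, rfl⟩, z, hz, a⁻¹, inv_ne_zero ha, ?_⟩
    simp only [Function.comp_apply]
    rw [hcz, h4]

/-- **The cover.** -/
theorem exists_discs [FiniteDimensional ℂ V] {X Z : Set V} (hX : Surface X) (hZX : Z ⊆ X) (hZs : ∀ x ∈ Z, ∀ c : ℂ, c ≠ 0 → c • x ∈ Z)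
    (hdisc : ∀ (n : ℕ) (g : ℂ × ℂ → ℂ), ResN n g → ∀ W ∈ 𝓝 (0 : ℂ × ℂ),
      ∃ (r : ℕ) (c : Fin r → ℂ → ℂ × ℂ), (∀ i, AnalyticOnNhd ℂ (c i) (closedBall 0 1)) ∧
      (∀ i, ∀ z ∈ closedBall (0 : ℂ) 1, c i z ∈ W ∧ g (c i z) = 0) ∧
      ∀ᶠ p in 𝓝 (0 : ℂ × ℂ), g p = 0 → ∃ i, ∃ z ∈ closedBall (0 : ℂ) (1 / 2), c i z = p)
    (hloc : ∀ x ∈ X, ∃ (σ : ℂ × ℂ → V) (τ : V → ℂ × ℂ) (g : ℂ × ℂ → ℂ), IsChart X σ τ ∧ σ 0 = x ∧ LocalEq Z σ g ∧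
      ¬ ∀ᶠ p in 𝓝 (0 : ℂ × ℂ), g p = 0) :
    ∃ (r : ℕ) (γ : Fin r → ℂ → V), (∀ i, AnalyticOnNhd ℂ (γ i) (closedBall 0 1)) ∧
      (∀ i, ∀ z ∈ closedBall (0 : ℂ) 1, γ i z ∈ Z) ∧
      ∀ x ∈ Z, ∃ i, ∃ z ∈ closedBall (0 : ℂ) (1 / 2), ∃ c : ℂ, c ≠ 0 ∧ γ i z = c • x := by
  have : ProperSpace V := FiniteDimensional.proper ℂ V
  have : CompleteSpace V := FiniteDimensional.complete ℂ V
  have hK : IsCompact (X ∩ sphere (0 : V) 1) := by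
    refine (isCompact_sphere (0 : V) 1).of_isClosed_subset ?_ Set.inter_subset_right
    refine isClosed_of_closure_subset fun x hx => ?_
    have h1 : x ∈ sphere (0 : V) 1 := by
      have h2 : closure (X ∩ sphere (0 : V) 1) ⊆ sphere (0 : V) 1 := closure_minimal Set.inter_subset_right isClosed_sphere
      exact h2 hx
    have h3 : x ≠ 0 := by
      rintro rfl
      simp at h1
    exact ⟨hX.closed x (closure_mono Set.inter_subset_left hx) h3, h1⟩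
  obtain ⟨T, hT1, hT2, hT3⟩ : ∃ T : Set (ℂ → V), T.Finite ∧ (∀ γ ∈ T, AnalyticOnNhd ℂ γ (closedBall 0 1) ∧ ∀ z ∈ closedBall (0 : ℂ) 1, γ z ∈ Z) ∧
      ∀ y ∈ X ∩ sphere (0 : V) 1, y ∈ Z → ∃ γ ∈ T, ∃ z ∈ closedBall (0 : ℂ) (1 / 2), ∃ c : ℂ, c ≠ 0 ∧ γ z = c • y := by
    refine hK.induction_on (p := fun S : Set V => ∃ T : Set (ℂ → V), T.Finite ∧
      (∀ γ ∈ T, AnalyticOnNhd ℂ γ (closedBall 0 1) ∧ ∀ z ∈ closedBall (0 : ℂ) 1, γ z ∈ Z) ∧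
      ∀ y ∈ S, y ∈ Z → ∃ γ ∈ T, ∃ z ∈ closedBall (0 : ℂ) (1 / 2), ∃ c : ℂ, c ≠ 0 ∧ γ z = c • y) ?_ ?_ ?_ ?_
    · exact ⟨∅, Set.finite_empty, by simp, by simp⟩
    · rintro s t hst ⟨T, h1, h2, h3⟩
      exact ⟨T, h1, h2, fun y hy => h3 y (hst hy)⟩
    · rintro s t ⟨T, h1, h2, h3⟩ ⟨T', h1', h2', h3'⟩
      refine ⟨T ∪ T', h1.union h1', ?_, ?_⟩
      · rintro γ (h | h)
        · exact h2 γ h
        · exact h2' γ h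
      · rintro y (h | h) hy
        · obtain ⟨γ, h4, h5⟩ := h3 y h hy
          exact ⟨γ, Or.inl h4, h5⟩
        · obtain ⟨γ, h4, h5⟩ := h3' y h hy
          exact ⟨γ, Or.inr h4, h5⟩
    · rintro x ⟨hx, -⟩
      obtain ⟨σ, τ, g, h1, h2, h3, h4⟩ := hloc x hx
      obtain ⟨T, h5, h6, h7⟩ := discs_near hZX hZs hdisc h1 h3 h4
      rw [h2] at h7
      exact ⟨_, mem_nhdsWithin_of_mem_nhds h7, T, h5, h6, fun y hy => hy⟩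
  obtain ⟨r, e⟩ := Finite.exists_equiv_fin (α := T) (h := hT1)
  obtain ⟨e⟩ := e
  refine ⟨r, fun i => (e.symm i).1, fun i => (hT2 _ (e.symm i).2).1, fun i => (hT2 _ (e.symm i).2).2, fun x hx => ?_⟩
  have hx0 : x ≠ 0 := by
    rintro rfl
    exact hX.zero (hZX hx)
  have hn : (‖x‖ : ℂ) ≠ 0 := by
    simpa using hx0
  have h1 : (‖x‖ : ℂ)⁻¹ • x ∈ Z := hZs x hx _ (inv_ne_zero hn)
  have h2 : (‖x‖ : ℂ)⁻¹ • x ∈ sphere (0 : V) 1 := by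
    rw [mem_sphere_zero_iff_norm, norm_smul, norm_inv, Complex.norm_real, norm_norm]
    exact inv_mul_cancel₀ (norm_ne_zero_iff.2 hx0)
  obtain ⟨γ, hγ, z, hz, c, hc, hcz⟩ := hT3 _ ⟨hZX h1, h2⟩ h1
  refine ⟨e ⟨γ, hγ⟩, z, hz, c * (‖x‖ : ℂ)⁻¹, mul_ne_zero hc (inv_ne_zero hn), ?_⟩
  simp only [Equiv.symm_apply_apply]
  rw [hcz, smul_smul]

end Pool.Agent.E1
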