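import Pool.Agent.E1.ChowS
import Pool.Agent.H17EF.Count

/-!
# E1 ChowF: a form which vanishes on a set which is covered by finitely many discs
-/

set_option autoImplicit false

open Topology Filter Metric MvPolynomial

noncomputable section

namespace Pool.Agent.E1

open Pool.Agent.H36.BP (EN)
open Pool.Agent.H14.PP (eval_smulEN analyticAt_evalEN continuous_evalEN)
open Pool.Agent.H17EF (exists_form_of_conditions)
open Pool.Agent.H17LG.Variety (FunField)

variable {N : ℕ}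

/-- **Forms on a surface which vanish on finitely many discs and their multiples.** -/
theorem exists_form_of_discs {P : Ideal (MvPolynomial (Fin (N + 1)) ℂ)} [P.IsPrime] {z : Fin 2 → FunField P} (hz : IsTranscendenceBasis ℂ z)
    (hX : ∃ i, (X i : MvPolynomial (Fin (N + 1)) ℂ) ∉ P) {Z : Set (EN N)} (hZ0 : (0 : EN N) ∉ Z) (hZs : ∀ x ∈ Z, ∀ c : ℂ, c ≠ 0 → c • x ∈ Z)
    {r : ℕ} (γ : Fin r → ℂ → EN N) (hγ : ∀ i, AnalyticOnNhd ℂ (γ i) (closedBall 0 1)) (hγZ : ∀ i, ∀ z ∈ closedBall (0 : ℂ) 1, γ i z ∈ Z)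
    (hcov : ∀ x ∈ Z, ∃ i, ∃ z ∈ closedBall (0 : ℂ) (1 / 2), ∃ c : ℂ, c ≠ 0 ∧ γ i z = c • x) :
    ∃ (R : MvPolynomial (Fin (N + 1)) ℂ) (d : ℕ), R.IsHomogeneous d ∧ R ∉ P ∧ ∀ x ∈ Z, eval x.ofLp R = 0 := by
  obtain ⟨K, hK⟩ := vanish_of_discs hZ0 hZs γ hγ hγZ hcov
  obtain ⟨d, hd, hL⟩ := exists_form_of_conditions hz hX (r * K)
  have han : ∀ (Q : MvPolynomial (Fin (N + 1)) ℂ) (i : Fin r), AnalyticAt ℂ (fun z => eval (γ i z).ofLp Q) 0 := fun Q i =>
    (analyticAt_evalEN Q (γ i 0)).fun_comp (hγ i 0 (mem_closedBall_self zero_le_one))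
  -- the linear conditions
  let e : Fin (r * K * d) ≃ Fin r × Fin (K * d) := (finCongr (mul_assoc r K d)).trans finProdFinEquiv.symm
  let L : MvPolynomial (Fin (N + 1)) ℂ →ₗ[ℂ] (Fin (r * K * d) → ℂ) :=
    { toFun := fun Q t => iteratedDeriv ((e t).2 : ℕ) (fun z => eval (γ (e t).1 z).ofLp Q) 0
      map_add' := by
        intro Q R
        funext t
        have e1 : (fun z => eval (γ (e t).1 z).ofLp (Q + R)) = (fun z => eval (γ (e t).1 z).ofLp Q) + fun z => eval (γ (e t).1 z).ofLp R := by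
          funext z; simp
        rw [e1, iteratedDeriv_add (han Q _).contDiffAt (han R _).contDiffAt]
        rfl
      map_smul' := by
        intro c Q
        funext t
        have e1 : (fun z => eval (γ (e t).1 z).ofLp (c • Q)) = c • fun z => eval (γ (e t).1 z).ofLp Q := by
          funext z; simp [MvPolynomial.smul_eval]
        rw [e1, iteratedDeriv_const_smul (han Q _).contDiffAt]
        rfl }
  obtain ⟨Q, hQ, hQP, hLQ⟩ := hL L
  refine ⟨Q, d, hQ, hQP, hK d hd Q hQ fun i k hk => ?_⟩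
  have h1 := congrFun hLQ (e.symm (i, ⟨k, hk⟩))
  simpa [L] using h1

end Pool.Agent.E1
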