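import Pool.Agent.E1.Disc
import Pool.Agent.E1.ChowC
import Pool.Agent.E1.ChowF
import Pool.Agent.H17EF.Bridge
import Pool.Agent.H62.FC.Main

/-!
# E1 Chow: an analytic curve in an algebraic surface, given locally by one equation, lies in an algebraic curve

`disc_cover` (Disc), `exists_discs` (ChowC), `exists_form_of_discs` (ChowF, ChowS).
-/

set_option autoImplicit false

open Topology Filter Metric MvPolynomial

noncomputable section

namespace Pool.Agent.E1

open Pool.Agent.H36.BP (EN)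
open Pool.Agent.H17BP (Surface IsChart LocalEq)
open Pool.Agent.H17EF (coneE)
open Pool.Agent.H17LG.Variety (FunField)

variable {N : ℕ}

/-- **Chow's theorem** for a curve in the surface which is given locally by one equation. -/
theorem exists_form_of_analytic {P : Ideal (MvPolynomial (Fin (N + 1)) ℂ)} [P.IsPrime] {z : Fin 2 → FunField P} (hz : IsTranscendenceBasis ℂ z)
    (hX : Surface (coneE P)) {Z : Set (EN N)} (hZX : Z ⊆ coneE P) (hZs : ∀ x ∈ Z, ∀ c : ℂ, c ≠ 0 → c • x ∈ Z)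
    (hloc : ∀ x ∈ coneE P, ∃ (σ : ℂ × ℂ → EN N) (τ : EN N → ℂ × ℂ) (g : ℂ × ℂ → ℂ), IsChart (coneE P) σ τ ∧ σ 0 = x ∧ LocalEq Z σ g ∧
      ¬ ∀ᶠ p in 𝓝 (0 : ℂ × ℂ), g p = 0) :
    ∃ (R : MvPolynomial (Fin (N + 1)) ℂ) (d : ℕ), R.IsHomogeneous d ∧ R ∉ P ∧ ∀ x ∈ Z, eval x.ofLp R = 0 := by
  obtain ⟨r, γ, hγ, hγZ, hcov⟩ := exists_discs hX hZX hZs (fun n g hg W hW => disc_cover n hg hW) hloc
  exact exists_form_of_discs hz (Pool.Agent.H62.FC.exists_X_notMem (r := 2) (by norm_num) ⟨z, hz⟩) (fun h => hX.zero (hZX h)) hZs γ hγ hγZ hcov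

end Pool.Agent.E1
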