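import Pool.Agent.H14.PP.Poly

/-!
# E1 ChowS: forms which vanish to high order at the centres of finitely many discs in a curve vanish on the curve
-/

set_option autoImplicit false

open Topology Filter Metric MvPolynomial

noncomputable section

namespace Pool.Agent.E1

open Pool.Agent.H36.BP (EN)
open Pool.Agent.H14.PP (eval_smulEN analyticAt_evalEN continuous_evalEN)

variable {N : ℕ}

/-- Schwarz lemma for a zero of order `n`. -/
theorem schwarz_order {f : ℂ → ℂ} (hf : AnalyticOnNhd ℂ f (closedBall 0 1)) {M : ℝ} (hM : ∀ z ∈ closedBall (0 : ℂ) 1, ‖f z‖ ≤ M) {n : ℕ}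
    (hn : (n : ℕ∞) ≤ analyticOrderAt f 0) {z : ℂ} (hz : z ∈ closedBall (0 : ℂ) 1) : ‖f z‖ ≤ M * ‖z‖ ^ n := by
  have h0 : AnalyticAt ℂ f 0 := hf 0 (mem_closedBall_self zero_le_one)
  rw [natCast_le_analyticOrderAt h0] at hn
  obtain ⟨g₁, hg₁, hfg⟩ := hn
  simp only [sub_zero, smul_eq_mul] at hfg
  obtain ⟨g, hg⟩ : ∃ g : ℂ → ℂ, g = fun z => if z = 0 then g₁ 0 else f z / z ^ n := ⟨_, rfl⟩
  have hga : AnalyticOnNhd ℂ g (closedBall 0 1) := by
    intro w hw
    by_cases hw0 : w = 0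
    · subst hw0
      refine hg₁.congr ?_
      filter_upwards [hfg] with y hy
      rw [hg]
      by_cases hy0 : y = 0
      · simp [hy0]
      · simp only [hy0, if_false]
        rw [hy]
        field_simp
    · have h1 : AnalyticAt ℂ (fun z => f z / z ^ n) w := (hf w hw).div (analyticAt_id.pow n) (pow_ne_zero n hw0)
      refine h1.congr ?_
      filter_upwards [eventually_ne_nhds hw0] with y hy
      rw [hg]
      simp only [hy, if_false]
  have hgM : ∀ z ∈ closedBall (0 : ℂ) 1, ‖g z‖ ≤ M := by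
    intro z hz
    have hcl : closure (ball (0 : ℂ) 1) = closedBall 0 1 := closure_ball 0 one_ne_zero
    refine Complex.norm_le_of_forall_mem_frontier_norm_le (U := ball (0 : ℂ) 1) isBounded_ball ?_ ?_ (by rwa [hcl])
    · refine DifferentiableOn.diffContOnCl ?_
      rw [hcl]
      exact hga.differentiableOn
    · intro w hw
      rw [frontier_ball (0 : ℂ) one_ne_zero] at hw
      have hw1 : ‖w‖ = 1 := by simpa using hw
      have hw0 : w ≠ 0 := by
        intro h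
        rw [h, norm_zero] at hw1
        exact zero_ne_one hw1
      rw [hg]
      simp only [hw0, if_false]
      rw [norm_div, norm_pow, hw1, one_pow, div_one]
      exact hM w (by rw [mem_closedBall_zero_iff, hw1])
  have hfz : f z = z ^ n * g z := by
    by_cases hz0 : z = 0
    · subst hz0
      rw [hfg.self_of_nhds, hg]
      simp
    · rw [hg]
      simp only [hz0, if_false]
      field_simp
  rw [hfz, norm_mul, norm_pow, mul_comm]
  exact mul_le_mul_of_nonneg_right (hgM z hz) (by positivity)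

/-- **Vanishing.**  The cone `Z` is covered by the cones over the half discs. -/
theorem vanish_of_discs {Z : Set (EN N)} (hZ0 : (0 : EN N) ∉ Z) (hZs : ∀ x ∈ Z, ∀ c : ℂ, c ≠ 0 → c • x ∈ Z) {r : ℕ} (γ : Fin r → ℂ → EN N)
    (hγ : ∀ i, AnalyticOnNhd ℂ (γ i) (closedBall 0 1)) (hγZ : ∀ i, ∀ z ∈ closedBall (0 : ℂ) 1, γ i z ∈ Z)
    (hcov : ∀ x ∈ Z, ∃ i, ∃ z ∈ closedBall (0 : ℂ) (1 / 2), ∃ c : ℂ, c ≠ 0 ∧ γ i z = c • x) :
    ∃ K : ℕ, ∀ d : ℕ, 1 ≤ d → ∀ Q : MvPolynomial (Fin (N + 1)) ℂ, Q.IsHomogeneous d →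
      (∀ i, ∀ k < K * d, iteratedDeriv k (fun z => eval (γ i z).ofLp Q) 0 = 0) → ∀ x ∈ Z, eval x.ofLp Q = 0 := by
  -- bounds for the discs
  obtain ⟨a, A, ha, hA, hbd⟩ : ∃ a A : ℝ, 0 < a ∧ 0 < A ∧ ∀ i, ∀ z ∈ closedBall (0 : ℂ) 1, a ≤ ‖γ i z‖ ∧ ‖γ i z‖ ≤ A := by
    have h1 : ∀ i, ∃ a A : ℝ, 0 < a ∧ 0 < A ∧ ∀ z ∈ closedBall (0 : ℂ) 1, a ≤ ‖γ i z‖ ∧ ‖γ i z‖ ≤ A := by
      intro i
      have hc : ContinuousOn (fun z => ‖γ i z‖) (closedBall 0 1) := (hγ i).continuousOn.norm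
      obtain ⟨z₁, hz₁, hmin⟩ := (isCompact_closedBall (0 : ℂ) 1).exists_isMinOn ⟨0, mem_closedBall_self zero_le_one⟩ hc
      obtain ⟨z₂, hz₂, hmax⟩ := (isCompact_closedBall (0 : ℂ) 1).exists_isMaxOn ⟨0, mem_closedBall_self zero_le_one⟩ hc
      have hp : ∀ z ∈ closedBall (0 : ℂ) 1, 0 < ‖γ i z‖ := fun z hz => norm_pos_iff.2 fun h => hZ0 (h ▸ hγZ i z hz)
      exact ⟨‖γ i z₁‖, ‖γ i z₂‖, hp z₁ hz₁, hp z₂ hz₂, fun z hz => ⟨hmin hz, hmax hz⟩⟩
    choose a A ha hA hb using h1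
    rcases Nat.eq_zero_or_pos r with hr | hr
    · subst hr
      exact ⟨1, 1, one_pos, one_pos, fun i => i.elim0⟩
    · have : Nonempty (Fin r) := ⟨⟨0, hr⟩⟩
      obtain ⟨i₁, -, hi₁⟩ := Finset.exists_min_image Finset.univ a Finset.univ_nonempty
      obtain ⟨i₂, -, hi₂⟩ := Finset.exists_max_image Finset.univ A Finset.univ_nonempty
      exact ⟨a i₁, A i₂, ha i₁, hA i₂, fun i z hz => ⟨(hi₁ i (Finset.mem_univ i)).trans (hb i z hz).1,
        (hb i z hz).2.trans (hi₂ i (Finset.mem_univ i))⟩⟩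
  obtain ⟨K, hK⟩ : ∃ K : ℕ, 2 * A / a ≤ 2 ^ K := by
    obtain ⟨K, hK⟩ := pow_unbounded_of_one_lt (2 * A / a) (one_lt_two)
    exact ⟨K, hK.le⟩
  refine ⟨K, fun d hd Q hQ hvan => ?_⟩
  -- the supremum of `Q` on the unit vectors of `Z`
  obtain ⟨B, hB0, hB⟩ : ∃ B : ℝ, 0 ≤ B ∧ ∀ x : EN N, ‖x‖ ≤ 1 → ‖eval x.ofLp Q‖ ≤ B := by
    obtain ⟨C, hC⟩ := (isCompact_closedBall (0 : EN N) 1).exists_bound_of_continuousOn (continuous_evalEN Q).continuousOn
    refine ⟨max C 0, le_max_right _ _, fun x hx => (hC x (by simpa using hx)).trans (le_max_left _ _)⟩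
  -- improvement
  have key : ∀ M : ℝ, 0 ≤ M → (∀ x ∈ Z, ‖x‖ = 1 → ‖eval x.ofLp Q‖ ≤ M) → ∀ x ∈ Z, ‖x‖ = 1 → ‖eval x.ofLp Q‖ ≤ M / 2 := by
    intro M hM0 hM x hx hx1
    have hhom : ∀ y ∈ Z, ‖eval y.ofLp Q‖ ≤ ‖y‖ ^ d * M := by
      intro y hy
      have hy0 : y ≠ 0 := fun h => hZ0 (h ▸ hy)
      have hyn : 0 < ‖y‖ := norm_pos_iff.2 hy0
      have hyc : ((‖y‖ : ℂ))⁻¹ ≠ 0 := by
        simpa using hy0
      have h1 := hM _ (hZs y hy _ hyc) (by
        rw [norm_smul, norm_inv, Complex.norm_real, norm_norm]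
        exact inv_mul_cancel₀ hyn.ne')
      rw [eval_smulEN hQ, norm_mul, norm_pow, norm_inv, Complex.norm_real, norm_norm] at h1
      rw [inv_pow] at h1
      have h2 : 0 < ‖y‖ ^ d := by positivity
      rwa [inv_mul_le_iff₀ h2] at h1
    obtain ⟨i, z, hz, c', hc', hxc'⟩ := hcov x hx
    obtain ⟨c, hcd⟩ : ∃ c : ℂ, c = c'⁻¹ := ⟨_, rfl⟩
    have hxc : x = c • γ i z := by
      rw [hxc', hcd, smul_smul, inv_mul_cancel₀ hc', one_smul]
    have hz1 : z ∈ closedBall (0 : ℂ) 1 := closedBall_subset_closedBall (by norm_num) hz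
    have hfa : AnalyticOnNhd ℂ (fun z => eval (γ i z).ofLp Q) (closedBall 0 1) := fun w hw =>
      (analyticAt_evalEN Q (γ i w)).fun_comp (hγ i w hw)
    have hord : ((K * d : ℕ) : ℕ∞) ≤ analyticOrderAt (fun z => eval (γ i z).ofLp Q) 0 := by
      rw [natCast_le_analyticOrderAt_iff_iteratedDeriv_eq_zero (hfa 0 (mem_closedBall_self zero_le_one))]
      exact fun k hk => hvan i k hk
    have h3 := schwarz_order hfa (M := A ^ d * M) (fun w hw => (hhom _ (hγZ i w hw)).trans (by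
      have := (hbd i w hw).2
      gcongr)) hord hz1
    have hzn : ‖z‖ ≤ 1 / 2 := by simpa using hz
    have hγn := (hbd i z hz1).1
    have hcn : ‖c‖ * ‖γ i z‖ = 1 := by
      rw [← norm_smul, ← hxc, hx1]
    have hca : ‖c‖ ≤ a⁻¹ := by
      have h4 : ‖c‖ * a ≤ 1 := by
        rw [← hcn]
        gcongr
      rwa [← le_div_iff₀ ha, one_div] at h4
    rw [hxc, eval_smulEN hQ, norm_mul, norm_pow]
    calc ‖c‖ ^ d * ‖eval (γ i z).ofLp Q‖ ≤ (a⁻¹) ^ d * (A ^ d * M * (1 / 2) ^ (K * d)) := by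
          have h5 : ‖z‖ ^ (K * d) ≤ (1 / 2) ^ (K * d) := by gcongr
          have h6 : A ^ d * M * ‖z‖ ^ (K * d) ≤ A ^ d * M * (1 / 2) ^ (K * d) := by gcongr
          gcongr
          exact h3.trans h6
      _ = (A / a / 2 ^ K) ^ d * M := by
          have e1 : ((1 : ℝ) / 2) ^ (K * d) = ((2 ^ K : ℝ)⁻¹) ^ d := by
            rw [pow_mul, one_div, inv_pow]
          have e2 : A / a / 2 ^ K = a⁻¹ * A * (2 ^ K : ℝ)⁻¹ := by
            rw [div_eq_mul_inv, div_eq_mul_inv]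
            ring
          rw [e1, e2, mul_pow, mul_pow]
          ring
      _ ≤ (1 / 2) ^ d * M := by
          have h7 : A / a / 2 ^ K ≤ 1 / 2 := by
            rw [div_le_div_iff₀ (by positivity) (by norm_num)]
            rw [mul_div_assoc] at hK
            linarith
          gcongr
      _ ≤ (1 / 2) ^ 1 * M := by
          have h8 : ((1 : ℝ) / 2) ^ d ≤ (1 / 2) ^ 1 := pow_le_pow_of_le_one (by norm_num) (by norm_num) hd
          gcongr
      _ = M / 2 := by ring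
  have hall : ∀ n : ℕ, ∀ x ∈ Z, ‖x‖ = 1 → ‖eval x.ofLp Q‖ ≤ B / 2 ^ n := by
    intro n
    induction n with
    | zero => intro x hx hx1; simpa using hB x hx1.le
    | succ n ih =>
      intro x hx hx1
      have := key (B / 2 ^ n) (by positivity) ih x hx hx1
      rw [pow_succ, ← div_div]
      exact this
  have hunit : ∀ x ∈ Z, ‖x‖ = 1 → eval x.ofLp Q = 0 := by
    intro x hx hx1
    rw [← norm_le_zero_iff]
    have ht : Tendsto (fun n : ℕ => B / 2 ^ n) atTop (𝓝 0) := by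
      have h1 : Tendsto (fun n : ℕ => B * (1 / 2 : ℝ) ^ n) atTop (𝓝 (B * 0)) :=
        (tendsto_pow_atTop_nhds_zero_of_lt_one (by norm_num) (by norm_num)).const_mul B
      rw [mul_zero] at h1
      refine h1.congr fun n => ?_
      rw [one_div, inv_pow]
      rfl
    exact ge_of_tendsto' ht fun n => hall n x hx hx1
  intro x hx
  have hx0 : x ≠ 0 := fun h => hZ0 (h ▸ hx)
  have hxn : 0 < ‖x‖ := norm_pos_iff.2 hx0
  have hxc : ((‖x‖ : ℂ))⁻¹ ≠ 0 := by
    simpa using hx0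
  have h1 := hunit _ (hZs x hx _ hxc) (by
    rw [norm_smul, norm_inv, Complex.norm_real, norm_norm]
    exact inv_mul_cancel₀ hxn.ne')
  rw [eval_smulEN hQ] at h1
  exact (mul_eq_zero.1 h1).resolve_left (pow_ne_zero _ hxc)

end Pool.Agent.E1
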