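import Pool.Agent.E1.Defs
import Pool.Agent.AD.T.LiftC

/-!
# E1 Cor: the curves which are tangent to two symmetric differentials
-/

set_option autoImplicit false

open Topology Filter Metric MvPolynomial

noncomputable section

namespace Pool.Agent.E1

open Pool.Agent.H36.BP (EN)
open Pool.Agent.H14.PP (IsCone Tan)
open Pool.Agent.H14.V (IsLift exists_isLift)
open Pool.Agent.H17 (PN VanishesAt HolomorphicInto)
open Pool.Agent.H17EF (projVar coneE)
open Pool.Agent.H62.FC (Homog)
open Pool.Agent.AD (SymDiff TangentTo Par par_iff exists_coord_ne)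

variable {N : ℕ}

theorem tan_of_lift {X : Set (EN N)} {F : ℂ → EN N} (hF : Differentiable ℂ F) (hX : ∀ z, F z ∈ X) (z : ℂ) :
    Tan X (F z) (deriv F z) := by
  refine ⟨fun y => F (z + y), ⟨?_, Eventually.of_forall fun y => hX _⟩, by simp, ?_⟩
  · have h1 : Differentiable ℂ fun y => F (z + y) := hF.comp ((differentiable_const z).add differentiable_id)
    exact h1.analyticAt 0
  · rw [deriv_comp_const_add, add_zero]

/-- the tangency does not depend on the lift -/
theorem zero_of_lift {X : Set (EN N)} {m : ℕ} (θ : SymDiff X m) {F G : ℂ → EN N} {f : ℂ → PN N} (hF : IsLift F f) (hG : IsLift G f)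
    (hFX : ∀ z, F z ∈ X) (hGX : ∀ z, G z ∈ X) {z : ℂ} (h : θ.toFun (F z) (deriv F z) = 0) : θ.toFun (G z) (deriv G z) = 0 := by
  obtain ⟨i, hi⟩ := exists_coord_ne (hG.ne_zero z)
  have hFi : Differentiable ℂ fun w => F w i := fun w => by
    exact (EuclideanSpace.proj (𝕜 := ℂ) i).differentiableAt.comp w (hF.1 w)
  have hGi : Differentiable ℂ fun w => G w i := fun w => by
    exact (EuclideanSpace.proj (𝕜 := ℂ) i).differentiableAt.comp w (hG.1 w)
  have hpar : ∀ w, Par F G w w := fun w => (par_iff hF hG w w).1 rfl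
  set c : ℂ → ℂ := fun w => F w i / G w i with hc
  have hcd : DifferentiableAt ℂ c z := (hFi z).div (hGi z) hi
  have hne : ∀ᶠ w in 𝓝 z, G w i ≠ 0 := (hGi z).continuousAt.eventually_ne hi
  have hFc : ∀ w, G w i ≠ 0 → F w = c w • G w := by
    intro w hw
    ext k
    show F w k = F w i / G w i * G w k
    have := hpar w i k
    rw [div_mul_eq_mul_div, eq_div_iff hw]
    have h2 := hpar w k i
    linear_combination (norm := ring_nf) h2
  have hc0 : c z ≠ 0 := by
    intro h0
    apply hF.ne_zero z
    rw [hFc z hi, h0, zero_smul]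
  have hev : F =ᶠ[𝓝 z] fun w => c w • G w := hne.mono fun w hw => hFc w hw
  have hd : deriv F z = c z • deriv G z + deriv c z • G z := by
    rw [hev.deriv_eq]
    exact (hcd.hasDerivAt.smul (hG.1 z).hasDerivAt).deriv
  have e1 : (c z)⁻¹ • F z = G z := by
    rw [hFc z hi, smul_smul, inv_mul_cancel₀ hc0, one_smul]
  have e2 : (c z)⁻¹ • deriv F z = deriv G z + ((c z)⁻¹ * deriv c z) • G z := by
    rw [hd, smul_add, smul_smul, smul_smul, inv_mul_cancel₀ hc0, one_smul]
  have h1 := θ.scale (F z) (deriv F z) (tan_of_lift hF.1 hFX z) (c z)⁻¹ (inv_ne_zero hc0)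
  rw [e1, e2, θ.add_smul (G z) (deriv G z) (tan_of_lift hG.1 hGX z), h] at h1
  exact h1

/-- a nonconstant curve which is tangent to both differentials lies in `{R = 0}` -/
theorem vanishes_of_tangent {P : Ideal (MvPolynomial (Fin (N + 1)) ℂ)} (hP : Homog P) (hc : IsCone (coneE P)) {m₁ m₂ : ℕ}
    (θ₁ : SymDiff (coneE P) m₁) (θ₂ : SymDiff (coneE P) m₂) {R : MvPolynomial (Fin (N + 1)) ℂ} {d : ℕ} (hR : R.IsHomogeneous d)
    (hZ : ∀ x ∈ ComNull θ₁ θ₂, eval x.ofLp R = 0) {f : ℂ → PN N} (hf : HolomorphicInto f Set.univ) (hfX : ∀ z, f z ∈ projVar P)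
    (hne : ∃ z w, f z ≠ f w) (h₁ : TangentTo θ₁ f) (h₂ : TangentTo θ₂ f) : ∀ z, VanishesAt R (f z) := by
  obtain ⟨F, hF, hF1⟩ := h₁
  obtain ⟨G, hG, hG2⟩ := h₂
  have hFX : ∀ z, F z ∈ coneE P := fun z => (hF.mem_iff hP z).1 (hfX z)
  have hGX : ∀ z, G z ∈ coneE P := fun z => (hG.mem_iff hP z).1 (hfX z)
  have hF2 : ∀ z, θ₂.toFun (F z) (deriv F z) = 0 := fun z => zero_of_lift θ₂ hG hF hGX hFX (hG2 z)
  have hcoord : ∀ k, Differentiable ℂ fun w => F w k := fun k w =>
    (EuclideanSpace.proj (𝕜 := ℂ) k).differentiableAt.comp w (hF.1 w)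
  have hRd : AnalyticOnNhd ℂ (fun z => eval (F z).ofLp R) Set.univ := fun z _ => by
    refine Pool.Agent.H17EF.analyticAt_eval (F := fun z => (F z).ofLp) ?_ R
    exact (differentiable_pi.2 hcoord).analyticAt z
  -- the product of `R` and the wedge product vanishes
  have hprod : ∀ z k l, eval (F z).ofLp R * (F z k * deriv F z l - F z l * deriv F z k) = 0 := by
    intro z k l
    by_cases h3 : ∃ a : ℂ, deriv F z = a • F z
    · obtain ⟨a, ha⟩ := h3
      rw [ha]
      simp only [PiLp.smul_apply, smul_eq_mul]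
      ring
    · push Not at h3
      rw [hZ (F z) ⟨hFX z, deriv F z, tan_of_lift hF.1 hFX z, h3, hF1 z, hF2 z⟩, zero_mul]
  have hdcoord : ∀ k, Differentiable ℂ fun w => deriv F w k := fun k w =>
    (EuclideanSpace.proj (𝕜 := ℂ) k).differentiableAt.comp w (hF.1.deriv w)
  have hRz : ∀ z, eval (F z).ofLp R = 0 := by
    by_contra hcon
    -- the curve is constant
    have hw : ∀ k l z, F z k * deriv F z l - F z l * deriv F z k = 0 := by
      intro k l
      have h4 : AnalyticOnNhd ℂ (fun z => F z k * deriv F z l - F z l * deriv F z k) Set.univ := fun z _ =>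
        (((hcoord k).mul (hdcoord l)).sub ((hcoord l).mul (hdcoord k))).analyticAt z
      rcases AnalyticOnNhd.eq_zero_or_eq_zero_of_mul_eq_zero hRd h4 (fun z _ => hprod z k l) isPreconnected_univ with h5 | h5
      · exact absurd (fun z => h5 z (Set.mem_univ z)) hcon
      · exact fun z => h5 z (Set.mem_univ z)
    obtain ⟨z₁, z₂, hz⟩ := hne
    apply hz
    obtain ⟨i, hi⟩ := exists_coord_ne (hF.ne_zero z₁)
    rw [par_iff hF hF]
    -- `F k / F i` is constant near `z₁`
    have h5 : ∀ k z, F z k * F z₁ i - F z i * F z₁ k = 0 := by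
      intro k
      have h6 : AnalyticOnNhd ℂ (fun z => F z k * F z₁ i - F z i * F z₁ k) Set.univ := fun z _ =>
        (((hcoord k).mul_const _).sub ((hcoord i).mul_const _)).analyticAt z
      have h7 : ∀ᶠ z in 𝓝 z₁, F z i ≠ 0 := (hcoord i z₁).continuousAt.eventually_ne hi
      obtain ⟨ε, hε, hball⟩ := Metric.eventually_nhds_iff_ball.1 h7
      have h8 : ∀ z ∈ ball z₁ ε, F z k / F z i = F z₁ k / F z₁ i := by
        intro z hz
        have h9 : ∀ y ∈ ball z₁ ε, HasDerivAt (fun y => F y k / F y i) 0 y := by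
          intro y hy
          have hk : HasDerivAt (fun w => F w k) (deriv F y k) y := by
            have := (EuclideanSpace.proj (𝕜 := ℂ) (ι := Fin (N + 1)) k).hasFDerivAt.comp_hasDerivAt y (hF.1 y).hasDerivAt
            exact this
          have hii : HasDerivAt (fun w => F w i) (deriv F y i) y := by
            have := (EuclideanSpace.proj (𝕜 := ℂ) (ι := Fin (N + 1)) i).hasFDerivAt.comp_hasDerivAt y (hF.1 y).hasDerivAt
            exact this
          have h10 := hk.div hii (hball y hy)
          have h11 : (deriv F y k * F y i - F y k * deriv F y i) / F y i ^ 2 = 0 := by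
            rw [div_eq_zero_iff]
            left
            linear_combination -(hw k i y)
          rwa [h11] at h10
        exact (convex_ball z₁ ε).is_const_of_fderivWithin_eq_zero (𝕜 := ℂ)
          (fun y hy => (h9 y hy).differentiableAt.differentiableWithinAt)
          (fun y hy => by
            rw [fderivWithin_of_isOpen isOpen_ball hy]
            have := (h9 y hy).hasFDerivAt.fderiv
            rw [this]
            ext
            simp) hz (mem_ball_self hε)
      have h9 : (fun z => F z k * F z₁ i - F z i * F z₁ k) =ᶠ[𝓝 z₁] 0 := by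
        filter_upwards [ball_mem_nhds z₁ hε] with z hz
        have h10 := h8 z hz
        rw [div_eq_div_iff (hball z hz) hi] at h10
        show F z k * F z₁ i - F z i * F z₁ k = 0
        linear_combination h10
      intro z
      exact h6.eqOn_zero_of_preconnected_of_eventuallyEq_zero isPreconnected_univ (Set.mem_univ z₁) h9 (Set.mem_univ z)
    intro k l
    have hk := h5 k z₂
    have hl := h5 l z₂
    apply mul_left_cancel₀ hi
    linear_combination (F z₁ k) * hl - (F z₁ l) * hk
  intro z
  obtain ⟨h1, h2⟩ := hF.2 z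
  obtain ⟨a, ha, hrep⟩ := Pool.Agent.H36.BP.rep_mk h1
  unfold VanishesAt
  rw [h2, hrep, Pool.Agent.H17EF.eval_smul_form hR, hRz z, mul_zero]

end Pool.Agent.E1
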