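import Pool.Agent.AD.T.Defs

/-!
# E1 Defs: the points where two symmetric differentials have a common null direction
-/

set_option autoImplicit false

namespace Pool.Agent.E1

open Pool.Agent.H36.BP (EN)
open Pool.Agent.H14.PP (Tan)
open Pool.Agent.AD (SymDiff)

variable {N : ℕ}

/-- the points of the manifold with the cone `X` where `θ₁` and `θ₂` have a common null direction -/
def ComNull {X : Set (EN N)} {m₁ m₂ : ℕ} (θ₁ : SymDiff X m₁) (θ₂ : SymDiff X m₂) : Set (EN N) :=
  {x | x ∈ X ∧ ∃ v : EN N, Tan X x v ∧ (∀ a : ℂ, v ≠ a • x) ∧ θ₁.toFun x v = 0 ∧ θ₂.toFun x v = 0}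

end Pool.Agent.E1
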