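import Pool.Agent.H17BP.ChartC

/-!
# E1 Disc: the zeros of a germ in two variables are covered by finitely many discs
-/

set_option autoImplicit false

open Topology Filter Metric

noncomputable section

namespace Pool.Agent.E1

open Pool.Agent.H17BP

/-- the properties of a disc -/
def DiscIn (g : ℂ × ℂ → ℂ) (W : Set (ℂ × ℂ)) (c : ℂ → ℂ × ℂ) : Prop :=
  AnalyticOnNhd ℂ c (closedBall 0 1) ∧ ∀ z ∈ closedBall (0 : ℂ) 1, c z ∈ W ∧ g (c z) = 0

theorem disc_axis {g : ℂ × ℂ → ℂ} {θ : ℂ × ℂ → ℂ × ℂ} (hθ : AnalyticAt ℂ θ 0) (h0 : θ 0 = 0) {e : ℂ × ℂ} {W : Set (ℂ × ℂ)}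
    (hW : W ∈ 𝓝 (0 : ℂ × ℂ)) (hz : ∀ᶠ z in 𝓝 (0 : ℂ), g (θ (z • e)) = 0) :
    ∃ δ : ℝ, 0 < δ ∧ DiscIn g W fun z => θ (((δ : ℂ) * z) • e) := by
  have ht : Tendsto (fun z : ℂ => z • e) (𝓝 0) (𝓝 0) := by
    have h : ContinuousAt (fun z : ℂ => z • e) 0 := by fun_prop
    have h1 := h.tendsto
    rwa [zero_smul] at h1
  have hθt : Tendsto θ (𝓝 0) (𝓝 0) := by
    have h := hθ.continuousAt.tendsto
    rwa [h0] at h
  obtain ⟨δ₀, hδ₀, h1⟩ := Metric.eventually_nhds_iff_ball.1 ((ht.eventually hθ.eventually_analyticAt).and (hz.and ((hθt.comp ht).eventually hW)))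
  have hδ : 0 < δ₀ / 2 := by positivity
  have hin : ∀ z ∈ closedBall (0 : ℂ) 1, ((δ₀ / 2 : ℝ) : ℂ) * z ∈ ball (0 : ℂ) δ₀ := by
    intro z hz
    rw [mem_closedBall, dist_zero_right] at hz
    rw [mem_ball, dist_zero_right, norm_mul, Complex.norm_real, Real.norm_of_nonneg hδ.le]
    calc δ₀ / 2 * ‖z‖ ≤ δ₀ / 2 * 1 := by gcongr
      _ < δ₀ := by linarith
  refine ⟨δ₀ / 2, hδ, fun z hz => ?_, fun z hz => ?_⟩
  · refine AnalyticAt.fun_comp (g := θ) (f := fun z : ℂ => (((δ₀ / 2 : ℝ) : ℂ) * z) • e) (h1 _ (hin z hz)).1 ?_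
    fun_prop
  · exact ⟨(h1 _ (hin z hz)).2.2, (h1 _ (hin z hz)).2.1⟩

theorem disc_const {g : ℂ × ℂ → ℂ} {W : Set (ℂ × ℂ)} (hW : W ∈ 𝓝 (0 : ℂ × ℂ)) (h0 : g 0 = 0) : DiscIn g W fun _ => 0 :=
  ⟨analyticOnNhd_const, fun _ _ => ⟨mem_of_mem_nhds hW, h0⟩⟩

/-- the case of a monomial -/
theorem disc_mono {g : ℂ × ℂ → ℂ} (hg : Mono g) {W : Set (ℂ × ℂ)} (hW : W ∈ 𝓝 (0 : ℂ × ℂ)) :
    ∃ C : Set (ℂ → ℂ × ℂ), C.Finite ∧ (∀ c ∈ C, DiscIn g W c) ∧
      ∀ᶠ p in 𝓝 (0 : ℂ × ℂ), g p = 0 → ∃ c ∈ C, ∃ z ∈ closedBall (0 : ℂ) (1 / 2), c z = p := by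
  obtain ⟨S, T, a, b, u, hST, hu, hu0, hgu⟩ := hg
  obtain ⟨θ, hθ, h1, h2⟩ := Bihol.exists_inv hST
  have hθt := hθ.tendsto
  have hun : ∀ᶠ p in 𝓝 (0 : ℂ × ℂ), u p ≠ 0 := hu.continuousAt.eventually_ne hu0
  have hST0 : Tendsto (fun p => (S p, T p)) (𝓝 0) (𝓝 0) := hST.tendsto
  -- the axis `S = 0`
  have hA : ∃ C : Set (ℂ → ℂ × ℂ), C.Finite ∧ (∀ c ∈ C, DiscIn g W c) ∧
      ∀ᶠ p in 𝓝 (0 : ℂ × ℂ), g p = 0 → S p = 0 → a ≠ 0 → ∃ c ∈ C, ∃ z ∈ closedBall (0 : ℂ) (1 / 2), c z = p := by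
    by_cases ha : a = 0
    · exact ⟨∅, Set.finite_empty, fun c hc => absurd hc (Set.notMem_empty _), Eventually.of_forall fun p _ _ h => absurd ha h⟩
    · obtain ⟨δ, hδ, hd⟩ := disc_axis (g := g) (e := ((0, 1) : ℂ × ℂ)) hθ.an hθ.zero hW (by
        have ht : Tendsto (fun z : ℂ => z • ((0, 1) : ℂ × ℂ)) (𝓝 0) (𝓝 0) := by
          have h : ContinuousAt (fun z : ℂ => z • ((0, 1) : ℂ × ℂ)) 0 := by fun_prop
          have h1 := h.tendsto
          rwa [zero_smul] at h1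
        filter_upwards [ht.eventually (hθt.eventually hgu), ht.eventually h2] with z g1 g2
        have g3 : S (θ (z • ((0, 1) : ℂ × ℂ))) = 0 := by
          have := congrArg Prod.fst g2
          simpa using this
        rw [g1, g3, zero_pow ha, zero_mul, zero_mul])
      refine ⟨{fun z => θ (((δ : ℂ) * z) • ((0, 1) : ℂ × ℂ))}, Set.finite_singleton _, fun c hc => by rw [Set.mem_singleton_iff.1 hc]; exact hd, ?_⟩
      have hsmall : ∀ᶠ p in 𝓝 (0 : ℂ × ℂ), ‖T p‖ < δ / 2 := by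
        have h3 : Tendsto (fun p => ‖T p‖) (𝓝 0) (𝓝 0) := by
          have h4 : Tendsto (fun p => ((S p, T p) : ℂ × ℂ).2) (𝓝 0) (𝓝 0) := (continuous_snd.tendsto (0 : ℂ × ℂ)).comp hST0
          simpa using h4.norm
        exact h3.eventually (gt_mem_nhds (by positivity))
      filter_upwards [h1, hsmall] with p g1 g2 _ g3 _
      refine ⟨_, Set.mem_singleton _, T p / δ, ?_, ?_⟩
      · rw [mem_closedBall, dist_zero_right, norm_div, Complex.norm_real, Real.norm_of_nonneg hδ.le, div_le_iff₀ hδ]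
        linarith
      · have hδ' : (δ : ℂ) ≠ 0 := by exact_mod_cast hδ.ne'
        have g4 : ((δ : ℂ) * (T p / δ)) • ((0, 1) : ℂ × ℂ) = (S p, T p) := by
          rw [mul_div_cancel₀ _ hδ', g3]
          simp
        show θ (((δ : ℂ) * (T p / δ)) • ((0, 1) : ℂ × ℂ)) = p
        rw [g4]
        exact g1
  have hB : ∃ C : Set (ℂ → ℂ × ℂ), C.Finite ∧ (∀ c ∈ C, DiscIn g W c) ∧
      ∀ᶠ p in 𝓝 (0 : ℂ × ℂ), g p = 0 → T p = 0 → b ≠ 0 → ∃ c ∈ C, ∃ z ∈ closedBall (0 : ℂ) (1 / 2), c z = p := by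
    by_cases hb : b = 0
    · exact ⟨∅, Set.finite_empty, fun c hc => absurd hc (Set.notMem_empty _), Eventually.of_forall fun p _ _ h => absurd hb h⟩
    · obtain ⟨δ, hδ, hd⟩ := disc_axis (g := g) (e := ((1, 0) : ℂ × ℂ)) hθ.an hθ.zero hW (by
        have ht : Tendsto (fun z : ℂ => z • ((1, 0) : ℂ × ℂ)) (𝓝 0) (𝓝 0) := by
          have h : ContinuousAt (fun z : ℂ => z • ((1, 0) : ℂ × ℂ)) 0 := by fun_prop
          have h1 := h.tendsto
          rwa [zero_smul] at h1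
        filter_upwards [ht.eventually (hθt.eventually hgu), ht.eventually h2] with z g1 g2
        have g3 : T (θ (z • ((1, 0) : ℂ × ℂ))) = 0 := by
          have := congrArg Prod.snd g2
          simpa using this
        rw [g1, g3, zero_pow hb, mul_zero, zero_mul])
      refine ⟨{fun z => θ (((δ : ℂ) * z) • ((1, 0) : ℂ × ℂ))}, Set.finite_singleton _, fun c hc => by rw [Set.mem_singleton_iff.1 hc]; exact hd, ?_⟩
      have hsmall : ∀ᶠ p in 𝓝 (0 : ℂ × ℂ), ‖S p‖ < δ / 2 := by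
        have h3 : Tendsto (fun p => ‖S p‖) (𝓝 0) (𝓝 0) := by
          have h4 : Tendsto (fun p => ((S p, T p) : ℂ × ℂ).1) (𝓝 0) (𝓝 0) := (continuous_fst.tendsto (0 : ℂ × ℂ)).comp hST0
          simpa using h4.norm
        exact h3.eventually (gt_mem_nhds (by positivity))
      filter_upwards [h1, hsmall] with p g1 g2 _ g3 _
      refine ⟨_, Set.mem_singleton _, S p / δ, ?_, ?_⟩
      · rw [mem_closedBall, dist_zero_right, norm_div, Complex.norm_real, Real.norm_of_nonneg hδ.le, div_le_iff₀ hδ]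
        linarith
      · have hδ' : (δ : ℂ) ≠ 0 := by exact_mod_cast hδ.ne'
        have g4 : ((δ : ℂ) * (S p / δ)) • ((1, 0) : ℂ × ℂ) = (S p, T p) := by
          rw [mul_div_cancel₀ _ hδ', g3]
          simp
        show θ (((δ : ℂ) * (S p / δ)) • ((1, 0) : ℂ × ℂ)) = p
        rw [g4]
        exact g1
  obtain ⟨CA, hCA, hCA1, hCA2⟩ := hA
  obtain ⟨CB, hCB, hCB1, hCB2⟩ := hB
  refine ⟨CA ∪ CB, hCA.union hCB, fun c hc => hc.elim (hCA1 c) (hCB1 c), ?_⟩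
  filter_upwards [hCA2, hCB2, hgu, hun] with p g1 g2 g3 g4 g5
  have g6 : S p ^ a * T p ^ b = 0 := by
    rw [g3] at g5
    exact (mul_eq_zero.1 g5).resolve_right g4
  rcases mul_eq_zero.1 g6 with g7 | g7
  · have ha : a ≠ 0 := by
      rintro rfl
      rw [pow_zero] at g7
      exact one_ne_zero g7
    obtain ⟨c, hc, z, hz, he⟩ := g1 g5 (pow_eq_zero_iff ha |>.1 g7) ha
    exact ⟨c, Or.inl hc, z, hz, he⟩
  · have hb : b ≠ 0 := by
      rintro rfl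
      rw [pow_zero] at g7
      exact one_ne_zero g7
    obtain ⟨c, hc, z, hz, he⟩ := g2 g5 (pow_eq_zero_iff hb |>.1 g7) hb
    exact ⟨c, Or.inr hc, z, hz, he⟩

theorem disc_set (n : ℕ) : ∀ {g : ℂ × ℂ → ℂ}, ResN n g → ∀ {W : Set (ℂ × ℂ)}, W ∈ 𝓝 (0 : ℂ × ℂ) →
    ∃ C : Set (ℂ → ℂ × ℂ), C.Finite ∧ (∀ c ∈ C, DiscIn g W c) ∧
      ∀ᶠ p in 𝓝 (0 : ℂ × ℂ), g p = 0 → ∃ c ∈ C, ∃ z ∈ closedBall (0 : ℂ) (1 / 2), c z = p := by
  induction n with
  | zero => exact fun hg _ hW => disc_mono hg hW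
  | succ n ih =>
    intro g hg W hW
    rcases hg with hg | hg
    · exact disc_mono hg hW
    -- the points of the exceptional curve
    have hpt : ∀ β : ℂ × ℂ → ℂ × ℂ, BChart β → (∀ x, AnalyticAt ℂ β x) → β 0 = 0 →
        ∃ (C : Set (ℂ → ℂ × ℂ)) (ε : ℝ), C.Finite ∧ (∀ c ∈ C, DiscIn g W c) ∧ 0 < ε ∧
          ∀ x : ℂ × ℂ, ‖x‖ < ε → g (β x) = 0 → ∃ c ∈ C, ∃ z ∈ closedBall (0 : ℂ) (1 / 2), c z = β x := by
      intro β hβ han h0
      have hβt : Tendsto β (𝓝 0) (𝓝 0) := by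
        have h := (han 0).continuousAt.tendsto
        rwa [h0] at h
      obtain ⟨C, hC, hC1, hC2⟩ := ih (hg β hβ) (W := β ⁻¹' W) (hβt hW)
      obtain ⟨ε, hε, h1⟩ := Metric.eventually_nhds_iff_ball.1 hC2
      refine ⟨(fun c => β ∘ c) '' C, ε, hC.image _, ?_, hε, ?_⟩
      · rintro _ ⟨c, hc, rfl⟩
        obtain ⟨h2, h3⟩ := hC1 c hc
        exact ⟨fun z hz => (han _).comp (h2 z hz), fun z hz => h3 z hz⟩
      · intro x hx hgx
        obtain ⟨c, hc, z, hz, he⟩ := h1 x (by rwa [mem_ball, dist_zero_right]) hgx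
        exact ⟨β ∘ c, ⟨c, hc, rfl⟩, z, hz, congrArg β he⟩
    obtain ⟨Ci, εi, hCi, hCi1, hεi, hCi2⟩ := hpt blInf bchart_blInf (fun x => analyticAt_blInf x) blInf_zero
    choose! Cb εb hCb hCb1 hεb hCb2 using fun t : ℂ => hpt (bl t) (bchart_bl t) (fun x => analyticAt_bl t x) (bl_zero t)
    obtain ⟨F, -, hF⟩ := (isCompact_closedBall (0 : ℂ) (1 / εi)).elim_nhds_subcover (fun t => ball t (εb t)) fun t _ => ball_mem_nhds t (hεb t)
    -- the constant disc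
    have h0c : ∃ C0 : Set (ℂ → ℂ × ℂ), C0.Finite ∧ (∀ c ∈ C0, DiscIn g W c) ∧
        (g 0 = 0 → ∃ c ∈ C0, ∃ z ∈ closedBall (0 : ℂ) (1 / 2), c z = 0) := by
      by_cases hg0 : g 0 = 0
      · exact ⟨{fun _ => 0}, Set.finite_singleton _, fun c hc => by rw [Set.mem_singleton_iff.1 hc]; exact disc_const hW hg0,
          fun _ => ⟨_, Set.mem_singleton _, 0, mem_closedBall_self (by norm_num), rfl⟩⟩
      · exact ⟨∅, Set.finite_empty, fun c hc => absurd hc (Set.notMem_empty _), fun h => absurd h hg0⟩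
    obtain ⟨C0, hC0, hC01, hC02⟩ := h0c
    refine ⟨C0 ∪ Ci ∪ ⋃ t ∈ F, Cb t, (hC0.union hCi).union (F.finite_toSet.biUnion fun t _ => hCb t), ?_, ?_⟩
    · intro c hc
      rcases hc with (hc | hc) | hc
      · exact hC01 c hc
      · exact hCi1 c hc
      · rw [Set.mem_iUnion₂] at hc
        obtain ⟨t, -, hct⟩ := hc
        exact hCb1 t c hct
    · have hsm : ∀ᶠ p in 𝓝 (0 : ℂ × ℂ), ‖p‖ < εi ∧ ∀ t ∈ F, ‖p‖ < εb t := by
        have h1 : ∀ ε : ℝ, 0 < ε → ∀ᶠ p in 𝓝 (0 : ℂ × ℂ), ‖p‖ < ε := fun ε hε => by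
          filter_upwards [ball_mem_nhds (0 : ℂ × ℂ) hε] with p hp
          rwa [mem_ball, dist_zero_right] at hp
        exact (h1 _ hεi).and ((Finset.eventually_all F).2 fun t _ => h1 _ (hεb t))
      filter_upwards [hsm] with p ⟨hp1, hp2⟩ hgp
      by_cases hp0 : p = 0
      · rw [hp0] at hgp ⊢
        obtain ⟨c, hc, z, hz, he⟩ := hC02 hgp
        exact ⟨c, Or.inl (Or.inl hc), z, hz, he⟩
      have hn1 : ‖p.1‖ ≤ ‖p‖ := norm_fst_le p
      have hn2 : ‖p.2‖ ≤ ‖p‖ := norm_snd_le p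
      by_cases hlt : ‖p.1‖ < εi * ‖p.2‖
      · have h2 : p.2 ≠ 0 := by
          intro h
          rw [h, norm_zero, mul_zero] at hlt
          exact absurd hlt (not_lt.2 (norm_nonneg _))
        have h3 : 0 < ‖p.2‖ := norm_pos_iff.2 h2
        have h4 : blInf (p.1 / p.2, p.2) = p := by
          rw [blInf]
          ext
          · exact div_mul_cancel₀ _ h2
          · rfl
        obtain ⟨c, hc, z, hz, he⟩ := hCi2 (p.1 / p.2, p.2) (by
          rw [Prod.norm_def]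
          refine max_lt ?_ (lt_of_le_of_lt hn2 hp1)
          show ‖p.1 / p.2‖ < εi
          rw [norm_div, div_lt_iff₀ h3]
          exact hlt) (by rw [h4]; exact hgp)
        exact ⟨c, Or.inl (Or.inr hc), z, hz, by rw [he, h4]⟩
      · rw [not_lt] at hlt
        have h2 : p.1 ≠ 0 := by
          intro h
          rw [h, norm_zero] at hlt
          have h5 : ‖p.2‖ ≤ 0 := by
            by_contra h6
            rw [not_le] at h6
            have := mul_pos hεi h6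
            linarith
          exact hp0 (Prod.ext h (norm_le_zero_iff.1 h5))
        have h3 : 0 < ‖p.1‖ := norm_pos_iff.2 h2
        have h4 : p.2 / p.1 ∈ closedBall (0 : ℂ) (1 / εi) := by
          rw [mem_closedBall, dist_zero_right, norm_div, div_le_div_iff₀ h3 hεi]
          linarith
        obtain ⟨t, ht, htt⟩ := Set.mem_iUnion₂.1 (hF h4)
        have h5 : bl t (p.1, p.2 / p.1 - t) = p := by
          rw [bl]
          ext
          · rfl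
          · show p.1 * (t + (p.2 / p.1 - t)) = p.2
            rw [add_sub_cancel, mul_div_cancel₀ _ h2]
        obtain ⟨c, hc, z, hz, he⟩ := hCb2 t (p.1, p.2 / p.1 - t) (by
          rw [Prod.norm_def]
          refine max_lt (lt_of_le_of_lt hn1 (hp2 t ht)) ?_
          show ‖p.2 / p.1 - t‖ < εb t
          rwa [mem_ball, dist_eq_norm] at htt) (by rw [h5]; exact hgp)
        exact ⟨c, Or.inr (Set.mem_iUnion₂.2 ⟨t, ht, hc⟩), z, hz, by rw [he, h5]⟩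

/-- **The zeros of a germ are covered by finitely many discs.** -/
theorem disc_cover (n : ℕ) {g : ℂ × ℂ → ℂ} (hg : ResN n g) {W : Set (ℂ × ℂ)} (hW : W ∈ 𝓝 (0 : ℂ × ℂ)) :
    ∃ (r : ℕ) (c : Fin r → ℂ → ℂ × ℂ), (∀ i, AnalyticOnNhd ℂ (c i) (closedBall 0 1)) ∧
      (∀ i, ∀ z ∈ closedBall (0 : ℂ) 1, c i z ∈ W ∧ g (c i z) = 0) ∧
      ∀ᶠ p in 𝓝 (0 : ℂ × ℂ), g p = 0 → ∃ i, ∃ z ∈ closedBall (0 : ℂ) (1 / 2), c i z = p := by
  obtain ⟨C, hC, hC1, hC2⟩ := disc_set n hg hW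
  obtain ⟨r, c, -, hcr⟩ := hC.fin_param
  have h1 : ∀ i, DiscIn g W (c i) := fun i => hC1 _ (hcr ▸ Set.mem_range_self i)
  refine ⟨r, c, fun i => (h1 i).1, fun i => (h1 i).2, ?_⟩
  filter_upwards [hC2] with p hp hgp
  obtain ⟨d, hd, z, hz, he⟩ := hp hgp
  rw [← hcr] at hd
  obtain ⟨i, rfl⟩ := hd
  exact ⟨i, z, hz, he⟩

end Pool.Agent.E1
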