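import Mathlib

/-!
# E1 ResX: the common zeros of two families of binary forms
-/

set_option autoImplicit false

open Topology Filter

noncomputable section

namespace Pool.Agent.E1

/-- a function which is analytic at `0` and homogeneous of degree `m` is a form -/
theorem ResX_form {m : ℕ} {f : ℂ × ℂ → ℂ} (hf : AnalyticAt ℂ f 0) (hh : ∀ (c : ℂ) (v : ℂ × ℂ), f (c • v) = c ^ m * f v) :
    ∃ P : Polynomial ℂ, P.natDegree ≤ m ∧ (∀ s, P.eval s = f (s, 1)) ∧ P.coeff m = f (1, 0) := by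
  obtain ⟨p, r, hp⟩ := hf
  have hpm : ∀ v : ℂ × ℂ, p m (fun _ => v) = f v := by
    intro v
    set L : ℂ →L[ℂ] ℂ × ℂ := ContinuousLinearMap.toSpanSingleton ℂ v with hL
    have hp0 : HasFPowerSeriesOnBall f p (L 0) r := by
      rw [map_zero]
      exact hp
    have h1 := hp0.compContinuousLinearMap
    have h2 := h1.factorial_smul (1 : ℂ) m
    rw [← iteratedDeriv_eq_iteratedFDeriv] at h2
    have h3 : (f ∘ L) = fun c : ℂ => c ^ m * f v := by
      funext c
      simp [hL, hh]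
    have h4 : iteratedDeriv m (fun c : ℂ => c ^ m * f v) 0 = (m.factorial : ℂ) * f v := by
      have h5 : (fun c : ℂ => c ^ m * f v) = fun c : ℂ => f v * c ^ m := by
        funext c
        ring
      have h8 : (∏ i ∈ Finset.range m, ((m : ℂ) - (i : ℂ))) = (m.factorial : ℂ) := by
        rw [← Nat.descFactorial_self, Nat.descFactorial_eq_prod_range, Nat.cast_prod]
        refine Finset.prod_congr rfl fun i hi => ?_
        rw [Nat.cast_sub (Finset.mem_range.1 hi).le]
      rw [h5, iteratedDeriv_const_mul_field, iteratedDeriv_eq_iterate, iter_deriv_pow', h8, Nat.sub_self]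
      simp only [pow_zero, mul_one]
      exact mul_comm _ _
    rw [h3, h4] at h2
    have h6 : (p.compContinuousLinearMap L) m (fun _ => (1 : ℂ)) = p m (fun _ => v) := by
      rw [FormalMultilinearSeries.compContinuousLinearMap_apply]
      congr 1
      funext i
      simp [hL]
    rw [h6, nsmul_eq_mul] at h2
    have h7 : (m.factorial : ℂ) ≠ 0 := by exact_mod_cast m.factorial_ne_zero
    exact mul_left_cancel₀ h7 h2
  set e₁ : Fin m → ℂ × ℂ := fun _ => (1, 0) with he₁
  set e₂ : Fin m → ℂ × ℂ := fun _ => (0, 1) with he₂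
  refine ⟨∑ S : Finset (Fin m), Polynomial.C (p m (S.piecewise e₁ e₂)) * Polynomial.X ^ S.card, ?_, ?_, ?_⟩
  · refine Polynomial.natDegree_sum_le_of_forall_le _ _ fun S _ => ?_
    refine (Polynomial.natDegree_C_mul_X_pow_le _ _).trans ?_
    have := S.card_le_univ
    rwa [Fintype.card_fin] at this
  · intro s
    rw [Polynomial.eval_finsetSum]
    have h1 : f (s, 1) = p m (fun i => s • e₁ i + e₂ i) := by
      rw [← hpm]
      congr 1
      funext i
      simp [he₁, he₂]
    have h2 : (fun i => s • e₁ i + e₂ i) = (fun i => s • e₁ i) + e₂ := rfl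
    rw [h1, h2, ContinuousMultilinearMap.map_add_univ]
    refine Finset.sum_congr rfl fun S _ => ?_
    have h3 : S.piecewise (fun i => s • e₁ i) e₂ = S.piecewise (fun i => s • (S.piecewise e₁ e₂) i) (S.piecewise e₁ e₂) := by
      funext i
      by_cases hi : i ∈ S
      · simp [hi]
      · simp [hi]
    rw [h3, ContinuousMultilinearMap.map_piecewise_smul, Finset.prod_const, Polynomial.eval_mul, Polynomial.eval_C, Polynomial.eval_pow,
      Polynomial.eval_X, smul_eq_mul, mul_comm]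
  · rw [Polynomial.finsetSum_coeff, Finset.sum_eq_single (Finset.univ : Finset (Fin m))]
    · rw [Finset.piecewise_univ, Finset.card_univ, Fintype.card_fin, Polynomial.coeff_C_mul_X_pow, if_pos rfl, ← hpm]
    · intro S _ hS
      rw [Polynomial.coeff_C_mul_X_pow, if_neg]
      intro h
      apply hS
      rw [← Finset.card_eq_iff_eq_univ, Fintype.card_fin, ← h]
    · intro h
      exact absurd (Finset.mem_univ _) h

/-- the coefficients of an analytic family of forms -/
theorem ResX_family {m : ℕ} {a : (ℂ × ℂ) × (ℂ × ℂ) → ℂ} (ha : ∀ v, AnalyticAt ℂ a (0, v))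
    (has : ∀ᶠ p in 𝓝 (0 : ℂ × ℂ), ∀ (c : ℂ) (v : ℂ × ℂ), a (p, c • v) = c ^ m * a (p, v)) :
    ∃ A : ℂ × ℂ → Polynomial ℂ, (∀ k, AnalyticAt ℂ (fun p => (A p).coeff k) 0) ∧
      ∀ᶠ p in 𝓝 (0 : ℂ × ℂ), (A p).natDegree ≤ m ∧ (∀ s, (A p).eval s = a (p, (s, 1))) ∧ (A p).coeff m = a (p, (1, 0)) := by
  refine ⟨fun p => Lagrange.interpolate (Finset.range (m + 1)) (fun j : ℕ => (j : ℂ)) (fun j : ℕ => a (p, ((j : ℂ), 1))), ?_, ?_⟩
  · intro k
    have h1 : (fun p : ℂ × ℂ => (Lagrange.interpolate (Finset.range (m + 1)) (fun j : ℕ => (j : ℂ)) (fun j : ℕ => a (p, ((j : ℂ), 1)))).coeff k) =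
        fun p : ℂ × ℂ => ∑ j ∈ Finset.range (m + 1), a (p, ((j : ℂ), 1)) *
          (Lagrange.basis (Finset.range (m + 1)) (fun j : ℕ => (j : ℂ)) j).coeff k := by
      funext p
      rw [Lagrange.interpolate_apply, Polynomial.finsetSum_coeff]
      refine Finset.sum_congr rfl fun j _ => ?_
      rw [Polynomial.coeff_C_mul]
    rw [h1]
    refine Finset.analyticAt_fun_sum _ fun j _ => ?_
    have h2 : AnalyticAt ℂ (fun p : ℂ × ℂ => (p, (((j : ℂ), (1 : ℂ)) : ℂ × ℂ))) 0 := analyticAt_id.prod analyticAt_const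
    exact (AnalyticAt.comp (g := a) (f := fun p : ℂ × ℂ => (p, (((j : ℂ), (1 : ℂ)) : ℂ × ℂ))) (ha _) h2).mul analyticAt_const
  · have h1 : ∀ᶠ p in 𝓝 (0 : ℂ × ℂ), AnalyticAt ℂ (fun v => a (p, v)) 0 := by
      have h2 : Tendsto (fun p : ℂ × ℂ => (p, (0 : ℂ × ℂ))) (𝓝 0) (𝓝 (0, 0)) := by
        have : Continuous (fun p : ℂ × ℂ => (p, (0 : ℂ × ℂ))) := by fun_prop
        exact this.tendsto 0
      filter_upwards [h2.eventually (ha 0).eventually_analyticAt] with p hp
      have h3 : AnalyticAt ℂ (fun v : ℂ × ℂ => (p, v)) 0 := analyticAt_const.prod analyticAt_id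
      exact AnalyticAt.comp (g := a) (f := fun v : ℂ × ℂ => (p, v)) hp h3
    filter_upwards [h1, has] with p h2 h3
    obtain ⟨P, hP, hPe, hPc⟩ := ResX_form h2 h3
    have h4 : P = Lagrange.interpolate (Finset.range (m + 1)) (fun j : ℕ => (j : ℂ)) (fun j : ℕ => a (p, ((j : ℂ), 1))) := by
      refine Lagrange.eq_interpolate_of_eval_eq _ ?_ ?_ ?_
      · intro i _ j _ hij
        exact Nat.cast_injective hij
      · rw [Finset.card_range]
        exact lt_of_le_of_lt (Polynomial.degree_le_of_natDegree_le hP) (by exact_mod_cast Nat.lt_succ_self m)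
      · intro j _
        exact hPe _
    rw [← h4]
    exact ⟨hP, hPe, hPc⟩

theorem ResX_det {n : ℕ} {M : ℂ × ℂ → Matrix (Fin n) (Fin n) ℂ} (h : ∀ i j, AnalyticAt ℂ (fun p => M p i j) 0) :
    AnalyticAt ℂ (fun p => (M p).det) 0 := by
  simp only [Matrix.det_apply]
  refine Finset.analyticAt_fun_sum _ fun σ _ => ?_
  have h1 : AnalyticAt ℂ (fun p => ∏ i, M p (σ i) i) 0 := Finset.analyticAt_fun_prod _ fun i _ => h _ _
  rcases Int.units_eq_one_or (Equiv.Perm.sign σ) with h2 | h2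
  · rw [h2]
    simpa using h1
  · rw [h2]
    refine h1.neg.congr (Eventually.of_forall fun p => ?_)
    simp

theorem ResX_res {m₁ m₂ : ℕ} {A B : ℂ × ℂ → Polynomial ℂ} (hA : ∀ k, AnalyticAt ℂ (fun p => (A p).coeff k) 0)
    (hB : ∀ k, AnalyticAt ℂ (fun p => (B p).coeff k) 0) : AnalyticAt ℂ (fun p => Polynomial.resultant (A p) (B p) m₁ m₂) 0 := by
  unfold Polynomial.resultant
  refine ResX_det fun i j => ?_
  induction j using Fin.addCases with
  | left j =>
    simp only [Polynomial.sylvester, Matrix.of_apply, Fin.addCases_left]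
    split_ifs
    · exact hB _
    · exact analyticAt_const
  | right j =>
    simp only [Polynomial.sylvester, Matrix.of_apply, Fin.addCases_right]
    split_ifs
    · exact hA _
    · exact analyticAt_const

/-- a common root, from the vanishing of the resultant -/
theorem ResX_root {m n : ℕ} (hm : 1 ≤ m) {f g : Polynomial ℂ} (hf : f.natDegree = m) (hg : g.natDegree ≤ n)
    (h : Polynomial.resultant f g m n = 0) : ∃ z, f.eval z = 0 ∧ g.eval z = 0 := by
  have h1 := Polynomial.resultant_eq_prod_eval f g n hg (IsAlgClosed.splits f)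
  rw [hf, h] at h1
  have hf0 : f ≠ 0 := by
    rintro rfl
    rw [Polynomial.natDegree_zero] at hf
    omega
  have h2 : (f.roots.map fun z => g.eval z).prod = 0 := by
    rcases mul_eq_zero.1 h1.symm with h3 | h3
    · exact absurd h3 (pow_ne_zero _ (Polynomial.leadingCoeff_ne_zero.2 hf0))
    · exact h3
  obtain ⟨z, hz, hz2⟩ := Multiset.mem_map.1 (Multiset.prod_eq_zero_iff.1 h2)
  exact ⟨z, (Polynomial.mem_roots hf0).1 hz, hz2⟩

/-- the resultant, with formal degrees -/
theorem ResX_iff {m n : ℕ} (hm : 1 ≤ m) (hn : 1 ≤ n) {f g : Polynomial ℂ} (hf : f.natDegree ≤ m) (hg : g.natDegree ≤ n) :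
    Polynomial.resultant f g m n = 0 ↔ (∃ z, f.eval z = 0 ∧ g.eval z = 0) ∨ (f.coeff m = 0 ∧ g.coeff n = 0) := by
  constructor
  · intro h
    by_cases hb : f.natDegree = m
    · exact Or.inl (ResX_root hm hb hg h)
    · by_cases hc : g.natDegree = n
      · have h4 := h
        rw [Polynomial.resultant_comm] at h4
        have h5 := (mul_eq_zero.1 h4).resolve_left (pow_ne_zero _ (neg_ne_zero.2 one_ne_zero))
        obtain ⟨z, h2, h3⟩ := ResX_root hn hc hf h5
        exact Or.inl ⟨z, h3, h2⟩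
      · exact Or.inr ⟨Polynomial.coeff_eq_zero_of_natDegree_lt (lt_of_le_of_ne hf hb),
          Polynomial.coeff_eq_zero_of_natDegree_lt (lt_of_le_of_ne hg hc)⟩
  · rintro (⟨z, h2, h3⟩ | ⟨h2, h3⟩)
    · obtain ⟨u, v, -, -, huv⟩ := Polynomial.exists_mul_add_mul_eq_C_resultant f g hf hg (Or.inl (by omega : m ≠ 0))
      have h4 := congrArg (fun q : Polynomial ℂ => q.eval z) huv
      simp only [Polynomial.eval_add, Polynomial.eval_mul, Polynomial.eval_C] at h4
      rw [← h4, h2, h3, zero_mul, zero_mul, add_zero]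
    · have hlt : ∀ {d : ℕ} {q : Polynomial ℂ}, 1 ≤ d → q.natDegree ≤ d → q.coeff d = 0 → q.natDegree < d := by
        intro d q hd hq h0
        refine lt_of_le_of_ne hq fun he => ?_
        have h5 : q.leadingCoeff = 0 := by
          rw [Polynomial.leadingCoeff, he]
          exact h0
        rw [Polynomial.leadingCoeff_eq_zero.1 h5, Polynomial.natDegree_zero] at he
        omega
      exact Polynomial.resultant_eq_zero_of_lt_lt _ _ _ _ (hlt hm hf h2) (hlt hn hg h3)

/-- **The common zeros of two families of binary forms** (the resultant, with the formal degrees `m₁`, `m₂`). -/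
theorem localEq_common {m₁ m₂ : ℕ} (h₁ : 1 ≤ m₁) (h₂ : 1 ≤ m₂) {a b : (ℂ × ℂ) × (ℂ × ℂ) → ℂ} (ha : ∀ v, AnalyticAt ℂ a (0, v))
    (hb : ∀ v, AnalyticAt ℂ b (0, v)) (has : ∀ᶠ p in 𝓝 (0 : ℂ × ℂ), ∀ (c : ℂ) (v : ℂ × ℂ), a (p, c • v) = c ^ m₁ * a (p, v))
    (hbs : ∀ᶠ p in 𝓝 (0 : ℂ × ℂ), ∀ (c : ℂ) (v : ℂ × ℂ), b (p, c • v) = c ^ m₂ * b (p, v)) :
    ∃ g : ℂ × ℂ → ℂ, AnalyticAt ℂ g 0 ∧ ∀ᶠ p in 𝓝 (0 : ℂ × ℂ), g p = 0 ↔ ∃ v : ℂ × ℂ, v ≠ 0 ∧ a (p, v) = 0 ∧ b (p, v) = 0 := by
  obtain ⟨A, hA, hA2⟩ := ResX_family ha has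
  obtain ⟨B, hB, hB2⟩ := ResX_family hb hbs
  refine ⟨fun p => Polynomial.resultant (A p) (B p) m₁ m₂, ResX_res hA hB, ?_⟩
  filter_upwards [hA2, hB2, has, hbs] with p ⟨hA3, hA4, hA5⟩ ⟨hB3, hB4, hB5⟩ h3 h4
  rw [ResX_iff h₁ h₂ hA3 hB3]
  constructor
  · rintro (⟨z, h5, h6⟩ | ⟨h5, h6⟩)
    · exact ⟨(z, 1), fun h => one_ne_zero (congrArg Prod.snd h), by rw [← hA4, h5], by rw [← hB4, h6]⟩
    · exact ⟨(1, 0), fun h => one_ne_zero (congrArg Prod.fst h), by rw [← hA5, h5], by rw [← hB5, h6]⟩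
  · rintro ⟨⟨v, w⟩, hv, h5, h6⟩
    by_cases hw : w = 0
    · rw [hw] at hv h5 h6
      have hv0 : v ≠ 0 := by
        rintro rfl
        exact hv rfl
      have e : ((v, 0) : ℂ × ℂ) = v • ((1, 0) : ℂ × ℂ) := by
        ext <;> simp
      rw [e] at h5 h6
      rw [h3] at h5
      rw [h4] at h6
      refine Or.inr ⟨?_, ?_⟩
      · rw [hA5]
        exact (mul_eq_zero.1 h5).resolve_left (pow_ne_zero _ hv0)
      · rw [hB5]
        exact (mul_eq_zero.1 h6).resolve_left (pow_ne_zero _ hv0)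
    · have e : ((v, w) : ℂ × ℂ) = w • ((v / w, 1) : ℂ × ℂ) := by
        ext
        · simp [mul_div_cancel₀ v hw]
        · simp
      rw [e] at h5 h6
      rw [h3] at h5
      rw [h4] at h6
      refine Or.inl ⟨v / w, ?_, ?_⟩
      · rw [hA4]
        exact (mul_eq_zero.1 h5).resolve_left (pow_ne_zero _ hw)
      · rw [hB4]
        exact (mul_eq_zero.1 h6).resolve_left (pow_ne_zero _ hw)

end Pool.Agent.E1
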