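import Pool.Agent.E1.ResL
import Pool.Agent.E1.ResX

/-!
# E1 Res: the common null directions of two symmetric differentials are given locally by one equation
-/

set_option autoImplicit false

open Topology Filter Metric

noncomputable section

namespace Pool.Agent.E1

open Pool.Agent.H36.BP (EN)
open Pool.Agent.H17BP (Surface IsChart LocalEq)
open Pool.Agent.AD (SymDiff)

variable {N : ℕ}

/-- **The common null directions of two symmetric differentials** are given locally by one equation: the resultant. -/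
theorem localEq_comNull {X : Set (EN N)} (_hX : Surface X) {m₁ m₂ : ℕ} (h₁ : 1 ≤ m₁) (h₂ : 1 ≤ m₂) (θ₁ : SymDiff X m₁) (θ₂ : SymDiff X m₂)
    {σ : ℂ × ℂ → EN N} {τ : EN N → ℂ × ℂ} (hσ : IsChart X σ τ) : ∃ g : ℂ × ℂ → ℂ, LocalEq (ComNull θ₁ θ₂) σ g :=
  ResL_localEq θ₁ θ₂ hσ fun _ _ ha hb has hbs => localEq_common h₁ h₂ ha hb has hbs

end Pool.Agent.E1
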