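import Pool.Agent.E1.Chow
import Pool.Agent.E1.Cor
import Pool.Agent.E1.Res
import Pool.Agent.H90.SG.Poly

/-!
# E1 Fin: two coprime symmetric differentials
-/

set_option autoImplicit false

open Topology Filter Metric MvPolynomial

noncomputable section

namespace Pool.Agent.E1

open Pool.Agent.H36.BP (EN)
open Pool.Agent.H17 (PN VanishesAt HolomorphicInto)
open Pool.Agent.H17BP (Surface IsChart LocalEq ResN)
open Pool.Agent.H17EF (projVar coneE)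
open Pool.Agent.H17LG.Variety (FunField)
open Pool.Agent.H13.SM (conTan)
open Pool.Agent.H62.FC (Homog)
open Pool.Agent.AD (SymDiff TangentTo)
open Pool.Agent.H14.PP (Tan)

variable {N : ℕ}

/-- the points with a common null direction form a cone -/
theorem comNull_smul {X : Set (EN N)} (hX : Pool.Agent.H14.PP.IsCone X) {m₁ m₂ : ℕ} (θ₁ : SymDiff X m₁) (θ₂ : SymDiff X m₂) :
    ∀ x ∈ ComNull θ₁ θ₂, ∀ c : ℂ, c ≠ 0 → c • x ∈ ComNull θ₁ θ₂ := by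
  rintro x ⟨hx, v, hv, hne, h1, h2⟩ c hc
  refine ⟨hX.smul_mem x hx c hc, c • v, Pool.Agent.H22.W.tan_smul hX hv hc, fun a ha => ?_, ?_, ?_⟩
  · apply hne a
    have h3 : c⁻¹ • c • v = c⁻¹ • a • c • x := by rw [ha]
    rw [smul_smul, inv_mul_cancel₀ hc, one_smul, smul_comm a c x, smul_smul c⁻¹ c, inv_mul_cancel₀ hc, one_smul] at h3
    exact h3
  · rw [θ₁.scale x v hv c hc, h1]
  · rw [θ₂.scale x v hv c hc, h2]

/-- **Two coprime symmetric differentials**: their common null curves lie in a curve. -/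
theorem exists_R {P : Ideal (MvPolynomial (Fin (N + 1)) ℂ)} [P.IsPrime] (hP : Homog P) {z : Fin 2 → FunField P} (hz : IsTranscendenceBasis ℂ z)
    (hsm : ∀ y : Fin (N + 1) → ℂ, y ≠ 0 → (∀ Q ∈ P, eval y Q = 0) → Module.finrank ℂ (conTan P y) ≤ 3)
    {m₁ m₂ : ℕ} (h₁ : 1 ≤ m₁) (h₂ : 1 ≤ m₂) (θ₁ : SymDiff (coneE P) m₁) (θ₂ : SymDiff (coneE P) m₂)
    (hthin : ∀ σ τ, IsChart (coneE P) σ τ → ∃ᶠ p in 𝓝 (0 : ℂ × ℂ), σ p ∉ ComNull θ₁ θ₂) :
    ∃ (R : MvPolynomial (Fin (N + 1)) ℂ) (d : ℕ), R.IsHomogeneous d ∧ R ∉ P ∧ ∀ f : ℂ → PN N, HolomorphicInto f Set.univ →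
      (∀ z, f z ∈ projVar P) → (∃ z w, f z ≠ f w) → TangentTo θ₁ f → TangentTo θ₂ f → ∀ z, VanishesAt R (f z) := by
  have hX := Pool.Agent.H90.SG.surface_coneE hP hz hsm
  have hc : Pool.Agent.H14.PP.IsCone (coneE P) :=
    Pool.Agent.H36.BP.isCone_transport (Pool.Agent.H17EF.LE N) (Pool.Agent.H13.SM.surface_cone hP hz fun y hy => hsm y hy.1 hy.2)
  obtain ⟨R, d, hR, hRP, hRZ⟩ := exists_form_of_analytic hz hX (Z := ComNull θ₁ θ₂) (fun x hx => hx.1) (comNull_smul hc θ₁ θ₂) (fun x hx => by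
    obtain ⟨σ, τ, hσ, h0⟩ := hX.chart x hx
    obtain ⟨g, hg⟩ := localEq_comNull hX h₁ h₂ θ₁ θ₂ hσ
    refine ⟨σ, τ, g, hσ, h0, hg, fun h3 => hthin σ τ hσ ?_⟩
    filter_upwards [hg.2, h3] with p hp1 hp2 hp3
    exact hp3 (hp1.2 hp2))
  exact ⟨R, d, hR, hRP, fun f hf hfX hne h1 h2 => vanishes_of_tangent hP hc θ₁ θ₂ hR hRZ hf hfX hne h1 h2⟩

end Pool.Agent.E1
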