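import Pool.Agent.E1.Fin
import Pool.Agent.SG2.Fin2

/-!
# E1 Main: the main theorem, the null curves lie in a curve or are tangent to two coprime symmetric differentials
-/

set_option autoImplicit false

open Topology Filter Metric MvPolynomial

noncomputable section

namespace Pool.Agent.E1

open Pool.Agent.H36.BP (EN)
open Pool.Agent.H17 (PN VanishesAt HolomorphicInto)
open Pool.Agent.H17BP (Surface IsChart)
open Pool.Agent.H17EF (projVar coneE)
open Pool.Agent.H17LG.Variety (FunField)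
open Pool.Agent.H13.SM (conTan)
open Pool.Agent.H13.OT (OrderTwo)
open Pool.Agent.H62.FC (Homog)
open Pool.Agent.AD (SymDiff TangentTo NullClass)
open Pool.Agent.AD.NC (IsSmooth IsOfLogGeneralType)
open Pool.Agent.SY (IsHyperbolicSurface)
open Pool.Agent.SG2 (NegSurf)

variable {N : ℕ}

/-- the dense form of the condition -/
theorem frequently_of_dense {X T : Set (EN N)} (hTs : ∀ x ∈ T, ∀ c : ℂ, c ≠ 0 → c • x ∈ T) (hd : X ⊆ closure (X \ T))
    {σ : ℂ × ℂ → EN N} {τ : EN N → ℂ × ℂ} (hσ : IsChart X σ τ) : ∃ᶠ p in 𝓝 (0 : ℂ × ℂ), σ p ∉ T := by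
  intro h
  have h' : ∀ᶠ p in 𝓝 (0 : ℂ × ℂ), σ p ∈ T := h.mono fun p hp => not_not.1 hp
  have hτ : Tendsto τ (𝓝 (σ 0)) (𝓝 0) := by
    have := hσ.τ_an.continuousAt.tendsto
    rwa [hσ.left.self_of_nhds] at this
  have h1 : ∀ᶠ y in 𝓝 (σ 0), y ∉ X \ T := by
    filter_upwards [hσ.right, hτ.eventually h'] with y hy1 hy2 hy3
    obtain ⟨c, hc, hy⟩ := hy1 hy3.1
    exact hy3.2 (hy ▸ hTs _ hy2 c hc)
  exact (mem_closure_iff_frequently.1 (hd hσ.σ_mem.self_of_nhds)) h1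

/-- The set `A` of entire curves in the surface of `P` is small: its nonconstant members with `T_f (r) = O (r ^ 2)` lie in one curve `{R = 0}`, or its
members are tangent to two symmetric differentials which have no common null direction at the points of a dense subset of the surface. -/
inductive SmallClass (P : Ideal (MvPolynomial (Fin (N + 1)) ℂ)) (A : Set (ℂ → PN N)) : Prop
  | curve (R : MvPolynomial (Fin (N + 1)) ℂ) (d : ℕ) (hR : R.IsHomogeneous d) (hRP : R ∉ P)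
      (h : ∀ f : ℂ → PN N, HolomorphicInto f Set.univ → OrderTwo f → (∀ z, f z ∈ projVar P) → (∃ z w, f z ≠ f w) → f ∈ A → ∀ z, VanishesAt R (f z))
  | coprime (m₁ m₂ : ℕ) (h₁ : 1 ≤ m₁) (h₂ : 1 ≤ m₂) (θ₁ : SymDiff (coneE P) m₁) (θ₂ : SymDiff (coneE P) m₂)
      (hd : coneE P ⊆ closure (coneE P \ ComNull θ₁ θ₂))
      (h : ∀ f : ℂ → PN N, HolomorphicInto f Set.univ → (∀ z, f z ∈ projVar P) → f ∈ A → TangentTo θ₁ f ∧ TangentTo θ₂ f)

/-- **SE.** -/
theorem main_small {P : Ideal (MvPolynomial (Fin (N + 1)) ℂ)} {m j : ℕ} {Ω : EN N → EN N → EN N → ℂ} {κ : Type}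
    {Q : κ → MvPolynomial (Fin (N + 1)) ℂ} {e μ : ℕ} [P.IsPrime] (hP : Homog P) (hdim : ∃ z : Fin 2 → FunField P, IsTranscendenceBasis ℂ z)
    (hsmooth : IsSmooth P 2) (hgt : IsOfLogGeneralType P (Fin.elim0 : Fin 0 → MvPolynomial (Fin (N + 1)) ℂ) 2)
    (hX : NegSurf P m j Ω Q e μ) (A : Set (ℂ → PN N)) (hA : NullClass P A) (hs : SmallClass P A) : IsHyperbolicSurface P := by
  rcases hs with ⟨R, d, hR, hRP, h⟩ | ⟨m₁, m₂, h₁, h₂, θ₁, θ₂, hd, h⟩
  · exact Pool.Agent.SG2.main_neg hP hdim hsmooth hgt hX A hA R d hR hRP h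
  · obtain ⟨z, hz⟩ := id hdim
    have hsm : ∀ y : Fin (N + 1) → ℂ, y ≠ 0 → (∀ Q ∈ P, eval y Q = 0) → Module.finrank ℂ (conTan P y) ≤ 3 :=
      fun y h0 h1 => hsmooth y h0 h1
    have hc : Pool.Agent.H14.PP.IsCone (coneE P) :=
      Pool.Agent.H36.BP.isCone_transport (Pool.Agent.H17EF.LE N) (Pool.Agent.H13.SM.surface_cone hP hz fun y hy => hsm y hy.1 hy.2)
    obtain ⟨R, d, hR, hRP, hR2⟩ := exists_R hP hz hsm h₁ h₂ θ₁ θ₂ fun σ τ hσ => frequently_of_dense (comNull_smul hc θ₁ θ₂) hd hσ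
    exact Pool.Agent.SG2.main_neg hP hdim hsmooth hgt hX A hA R d hR hRP fun f hf _ hfX hfn hfA => hR2 f hf hfX hfn (h f hf hfX hfA).1 (h f hf hfX hfA).2

end Pool.Agent.E1
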