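import Pool.Agent.E1.Defs
import Pool.Agent.H17BP.Surf
import Pool.Agent.H36.TB.Cur

/-!
# E1 ResL: the common null directions of two symmetric differentials, in a chart
-/

set_option autoImplicit false

open Topology Filter Metric

noncomputable section

namespace Pool.Agent.E1

open Pool.Agent.H36.BP (EN)
open Pool.Agent.H14.PP (Tan)
open Pool.Agent.H17BP (Surface IsChart LocalEq)
open Pool.Agent.AD (SymDiff)

variable {N : ℕ} {X : Set (EN N)}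

/-- a symmetric differential in the coordinates of a parametrization is analytic -/
theorem ResL_analytic {m : ℕ} (θ : SymDiff X m) {σ : ℂ × ℂ → EN N} (hσ : AnalyticAt ℂ σ 0) (hX : ∀ᶠ p in 𝓝 (0 : ℂ × ℂ), σ p ∈ X)
    (v : ℂ × ℂ) : AnalyticAt ℂ (fun q : (ℂ × ℂ) × (ℂ × ℂ) => θ.toFun (σ q.1) (fderiv ℂ σ q.1 q.2)) (0, v) := by
  set e : (Fin 2 → ℂ) →L[ℂ] ℂ × ℂ := (ContinuousLinearMap.proj 0).prod (ContinuousLinearMap.proj 1) with he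
  set f : ℂ × ℂ →L[ℂ] (Fin 2 → ℂ) := ContinuousLinearMap.pi ![ContinuousLinearMap.fst ℂ ℂ ℂ, ContinuousLinearMap.snd ℂ ℂ ℂ] with hf
  have hef : ∀ p : ℂ × ℂ, e (f p) = p := by
    intro p
    ext <;> simp [he, hf]
  have he0 : e 0 = 0 := map_zero e
  have hφ : AnalyticAt ℂ (fun y : Fin 2 → ℂ => σ (e y)) 0 := by
    have h1 : AnalyticAt ℂ σ (e 0) := by rwa [he0]
    exact AnalyticAt.comp (g := σ) (f := fun y => e y) h1 (e.analyticAt 0)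
  have het : Tendsto e (𝓝 0) (𝓝 (0 : ℂ × ℂ)) := by
    have := e.continuous.tendsto 0
    rwa [he0] at this
  have hφX : ∀ᶠ y in 𝓝 (0 : Fin 2 → ℂ), σ (e y) ∈ X := het.eventually hX
  have h1 := θ.analytic 2 (fun y => σ (e y)) 0 (f v) hφ hφX
  set G : (ℂ × ℂ) × (ℂ × ℂ) →L[ℂ] (Fin 2 → ℂ) × (Fin 2 → ℂ) := f.prodMap f with hG
  have hG0 : G (0, v) = (0, f v) := by
    simp [hG]
  have h2 : AnalyticAt ℂ (fun q : (ℂ × ℂ) × (ℂ × ℂ) => θ.toFun (σ (e (G q).1)) (fderiv ℂ (fun y => σ (e y)) (G q).1 (G q).2)) (0, v) := by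
    have h3 : AnalyticAt ℂ (fun y : (Fin 2 → ℂ) × (Fin 2 → ℂ) => θ.toFun (σ (e y.1)) (fderiv ℂ (fun y => σ (e y)) y.1 y.2)) (G (0, v)) := by
      rw [hG0]
      exact h1
    exact AnalyticAt.comp (g := fun y : (Fin 2 → ℂ) × (Fin 2 → ℂ) => θ.toFun (σ (e y.1)) (fderiv ℂ (fun y => σ (e y)) y.1 y.2))
      (f := fun q => G q) h3 (G.analyticAt _)
  refine h2.congr ?_
  have h4 : ∀ᶠ q in 𝓝 ((0 : ℂ × ℂ), v), AnalyticAt ℂ σ q.1 :=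
    (continuous_fst.tendsto ((0 : ℂ × ℂ), v)).eventually hσ.eventually_analyticAt
  filter_upwards [h4] with q hq
  have h5 : (G q).1 = f q.1 := rfl
  have h6 : (G q).2 = f q.2 := rfl
  rw [h5, h6, hef]
  have h7 : HasFDerivAt (fun y : Fin 2 → ℂ => σ (e y)) ((fderiv ℂ σ q.1).comp e) (f q.1) := by
    have h8 : HasFDerivAt σ (fderiv ℂ σ q.1) (e (f q.1)) := by
      rw [hef]
      exact hq.differentiableAt.hasFDerivAt
    exact h8.comp (f q.1) e.hasFDerivAt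
  rw [h7.fderiv, ContinuousLinearMap.comp_apply, hef]

/-- the differential of a parametrization maps to the tangent spaces -/
theorem ResL_tan {σ : ℂ × ℂ → EN N} {p : ℂ × ℂ} (hσ : AnalyticAt ℂ σ p) (hX : ∀ᶠ q in 𝓝 p, σ q ∈ X) (v : ℂ × ℂ) :
    Tan X (σ p) (fderiv ℂ σ p v) := by
  have hl : AnalyticAt ℂ (fun z : ℂ => p + z • v) 0 := by fun_prop
  have h0 : p + (0 : ℂ) • v = p := by simp
  have hσ' : AnalyticAt ℂ σ (p + (0 : ℂ) • v) := by rwa [h0]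
  refine ⟨fun z => σ (p + z • v), ⟨AnalyticAt.comp (g := σ) (f := fun z : ℂ => p + z • v) hσ' hl, ?_⟩, by simp, ?_⟩
  · have h1 : Tendsto (fun z : ℂ => p + z • v) (𝓝 0) (𝓝 p) := by
      have := hl.continuousAt.tendsto
      rwa [h0] at this
    exact h1.eventually hX
  · have h1 : HasFDerivAt σ (fderiv ℂ σ p) (p + (0 : ℂ) • v) := by
      rw [h0]
      exact hσ.differentiableAt.hasFDerivAt
    have h2 : HasDerivAt (fun z : ℂ => p + z • v) v 0 := by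
      have h3 : HasDerivAt (fun z : ℂ => z • v) ((1 : ℂ) • v) 0 := (hasDerivAt_id (0 : ℂ)).smul_const v
      rw [one_smul] at h3
      exact h3.const_add p
    exact (h1.comp_hasDerivAt (0 : ℂ) h2).deriv

/-- the tangent spaces in a chart -/
theorem ResL_span {σ : ℂ × ℂ → EN N} {τ : EN N → ℂ × ℂ} (hσ : IsChart X σ τ) :
    ∀ᶠ p in 𝓝 (0 : ℂ × ℂ), ∀ w, Tan X (σ p) w → ∃ (v : ℂ × ℂ) (a : ℂ), w = fderiv ℂ σ p v + a • σ p := by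
  have hσc : Tendsto σ (𝓝 (0 : ℂ × ℂ)) (𝓝 (σ 0)) := hσ.σ_an.continuousAt.tendsto
  have hne : ∀ᶠ p in 𝓝 (0 : ℂ × ℂ), σ p ≠ 0 := hσ.σ_an.continuousAt.eventually_ne hσ.ne
  filter_upwards [hσc.eventually (Pool.Agent.H36.TB.exists_coef hσ), hσ.left, hne] with p h1 h3 h4 w hw
  obtain ⟨F, ⟨hF, hFX⟩, hF0, hFd⟩ := hw
  obtain ⟨c, a, hc, h5, h6⟩ := h1 F 0 hF hFX hF0
  rw [hF0, h3] at h5
  rw [h3] at h6
  have hc1 : c = 1 := by
    by_contra hc1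
    apply h4
    have h7 : (c - 1) • σ p = 0 := by
      rw [sub_smul, one_smul, ← h5, sub_self]
    exact (smul_eq_zero.1 h7).resolve_left (sub_ne_zero.2 hc1)
  rw [hc1, one_smul] at h6
  exact ⟨_, a, hFd ▸ h6⟩

/-- the parametrization is transversal to the lines of the cone -/
theorem ResL_indep {σ : ℂ × ℂ → EN N} {τ : EN N → ℂ × ℂ} (hσ : IsChart X σ τ) :
    ∀ᶠ p in 𝓝 (0 : ℂ × ℂ), ∀ (v : ℂ × ℂ) (a : ℂ), fderiv ℂ σ p v = a • σ p → v = 0 := by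
  have hσc : Tendsto σ (𝓝 (0 : ℂ × ℂ)) (𝓝 (σ 0)) := hσ.σ_an.continuousAt.tendsto
  have h1 : ∀ᶠ p in 𝓝 (0 : ℂ × ℂ), AnalyticAt ℂ σ p := hσ.σ_an.eventually_analyticAt
  have h2 : ∀ᶠ p in 𝓝 (0 : ℂ × ℂ), AnalyticAt ℂ τ (σ p) := hσc.eventually hσ.τ_an.eventually_analyticAt
  have h3 : ∀ᶠ p in 𝓝 (0 : ℂ × ℂ), ∀ᶠ q in 𝓝 p, τ (σ q) = q := eventually_eventually_nhds.2 hσ.left
  have h4 : ∀ᶠ p in 𝓝 (0 : ℂ × ℂ), ∀ᶠ c in 𝓝 (1 : ℂ), τ (c • σ p) = τ (σ p) := by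
    have h5 : ∀ᶠ y in 𝓝 (σ 0), ∀ᶠ c in 𝓝 (1 : ℂ), τ (c • y) = τ y := by
      have h6 := hσ.inv
      rw [nhds_prod_eq] at h6
      exact h6.curry
    exact hσc.eventually h5
  filter_upwards [h1, h2, h3, h4] with p p1 p2 p3 p4 v a hv
  have h5 : HasFDerivAt τ (fderiv ℂ τ (σ p)) (σ p) := p2.differentiableAt.hasFDerivAt
  have h6 : fderiv ℂ τ (σ p) (fderiv ℂ σ p v) = v := by
    have h7 := h5.comp p p1.differentiableAt.hasFDerivAt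
    have h8 : HasFDerivAt (τ ∘ σ) (ContinuousLinearMap.id ℂ (ℂ × ℂ)) p := (hasFDerivAt_id p).congr_of_eventuallyEq p3
    have := DFunLike.congr_fun (h7.unique h8) v
    simpa using this
  have h7 : fderiv ℂ τ (σ p) (σ p) = 0 := by
    have h8 : HasFDerivAt τ (fderiv ℂ τ (σ p)) ((1 : ℂ) • σ p) := by
      rw [one_smul]
      exact h5
    have h9 : HasDerivAt (fun c : ℂ => c • σ p) (σ p) 1 := by
      simpa using (hasDerivAt_id (1 : ℂ)).smul_const (σ p)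
    have h10 := h8.comp_hasDerivAt (1 : ℂ) h9
    have h11 : HasDerivAt (τ ∘ fun c : ℂ => c • σ p) 0 1 := (hasDerivAt_const (1 : ℂ) (τ (σ p))).congr_of_eventuallyEq p4
    exact h10.unique h11
  rw [← h6, hv, map_smul, h7, smul_zero]

/-- **The common null directions in a chart**, from the theorem on two families of binary forms. -/
theorem ResL_localEq {m₁ m₂ : ℕ} (θ₁ : SymDiff X m₁) (θ₂ : SymDiff X m₂) {σ : ℂ × ℂ → EN N} {τ : EN N → ℂ × ℂ} (hσ : IsChart X σ τ)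
    (hcom : ∀ a b : (ℂ × ℂ) × (ℂ × ℂ) → ℂ, (∀ v, AnalyticAt ℂ a (0, v)) → (∀ v, AnalyticAt ℂ b (0, v)) →
      (∀ᶠ p in 𝓝 (0 : ℂ × ℂ), ∀ (c : ℂ) (v : ℂ × ℂ), a (p, c • v) = c ^ m₁ * a (p, v)) →
      (∀ᶠ p in 𝓝 (0 : ℂ × ℂ), ∀ (c : ℂ) (v : ℂ × ℂ), b (p, c • v) = c ^ m₂ * b (p, v)) →
      ∃ g : ℂ × ℂ → ℂ, AnalyticAt ℂ g 0 ∧ ∀ᶠ p in 𝓝 (0 : ℂ × ℂ), g p = 0 ↔ ∃ v : ℂ × ℂ, v ≠ 0 ∧ a (p, v) = 0 ∧ b (p, v) = 0) :
    ∃ g : ℂ × ℂ → ℂ, LocalEq (ComNull θ₁ θ₂) σ g := by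
  have htan : ∀ᶠ p in 𝓝 (0 : ℂ × ℂ), ∀ v : ℂ × ℂ, Tan X (σ p) (fderiv ℂ σ p v) := by
    filter_upwards [hσ.σ_an.eventually_analyticAt, hσ.σ_mem.eventually_nhds] with p h1 h2 v
    exact ResL_tan h1 h2 v
  have hhom : ∀ {m : ℕ} (θ : SymDiff X m), ∀ᶠ p in 𝓝 (0 : ℂ × ℂ), ∀ (c : ℂ) (v : ℂ × ℂ),
      θ.toFun (σ p) (fderiv ℂ σ p (c • v)) = c ^ m * θ.toFun (σ p) (fderiv ℂ σ p v) := by
    intro m θ
    filter_upwards [htan] with p hp c v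
    rw [map_smul]
    exact θ.smul _ _ (hp v) c
  obtain ⟨g, hg, hg0⟩ := hcom (fun q => θ₁.toFun (σ q.1) (fderiv ℂ σ q.1 q.2)) (fun q => θ₂.toFun (σ q.1) (fderiv ℂ σ q.1 q.2))
    (ResL_analytic θ₁ hσ.σ_an hσ.σ_mem) (ResL_analytic θ₂ hσ.σ_an hσ.σ_mem) (hhom θ₁) (hhom θ₂)
  refine ⟨g, hg, ?_⟩
  filter_upwards [hg0, htan, hσ.σ_mem, ResL_span hσ, ResL_indep hσ] with p h1 h2 h3 h4 h5
  rw [h1]
  constructor
  · rintro ⟨-, w, hw, hwa, hw1, hw2⟩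
    obtain ⟨v, a, rfl⟩ := h4 w hw
    refine ⟨v, ?_, ?_, ?_⟩
    · rintro rfl
      exact hwa a (by rw [map_zero, zero_add])
    · rwa [θ₁.add_smul _ _ (h2 v)] at hw1
    · rwa [θ₂.add_smul _ _ (h2 v)] at hw2
  · rintro ⟨v, hv, hv1, hv2⟩
    exact ⟨h3, fderiv ℂ σ p v, h2 v, fun a ha => hv (h5 v a ha), hv1, hv2⟩

end Pool.Agent.E1
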