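import Mathlib

/-!
# E1 Schw: the Schwarz lemma of order `n` on a bidisc
-/

set_option autoImplicit false

open Topology Filter Metric

noncomputable section

namespace Pool.Agent.E1

/-- one variable: the remainder of the Taylor polynomial -/
theorem taylor_one {g : ℂ → ℂ} {ρ M : ℝ} (hρ : 0 < ρ) (hg : DiffContOnCl ℂ g (ball 0 (2 * ρ))) (hM : ∀ z ∈ closedBall (0 : ℂ) (2 * ρ), ‖g z‖ ≤ M)
    (n : ℕ) {s : ℂ} (hs : ‖s‖ ≤ ρ) :
    ‖g s - ∑ k ∈ Finset.range n, ((k.factorial : ℂ))⁻¹ • s ^ k • iteratedDeriv k g 0‖ ≤ 2 * M * (1 / 2) ^ n := by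
  have h2 : (0 : ℝ) < 2 * ρ := by positivity
  have hsum : HasSum (fun k : ℕ => ((k.factorial : ℂ))⁻¹ • s ^ k • iteratedDeriv k g 0) (g s) := by
    have h := Complex.hasSum_taylorSeries_on_ball (f := g) (c := 0) (r := 2 * ρ) (z := s) hg.differentiableOn (by
      rw [mem_ball, dist_zero_right]; linarith)
    simpa using h
  have hbd : ∀ k : ℕ, ‖((k.factorial : ℂ))⁻¹ • s ^ k • iteratedDeriv k g 0‖ ≤ M * (1 / 2) ^ k := by
    intro k
    have h := Complex.norm_iteratedDeriv_le_of_forall_mem_sphere_norm_le k h2 hg fun z hz => hM z (sphere_subset_closedBall hz)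
    rw [norm_smul, norm_smul, norm_inv, norm_pow, Complex.norm_natCast]
    have hf : (0 : ℝ) < k.factorial := by positivity
    calc (k.factorial : ℝ)⁻¹ * (‖s‖ ^ k * ‖iteratedDeriv k g 0‖) ≤ (k.factorial : ℝ)⁻¹ * (ρ ^ k * (k.factorial * M / (2 * ρ) ^ k)) := by gcongr
      _ = M * (1 / 2) ^ k := by
        rw [mul_pow, one_div, inv_pow]
        field_simp
  have hM0 : 0 ≤ M := (norm_nonneg _).trans (hM 0 (mem_closedBall_self h2.le))
  have htail := (hasSum_nat_add_iff' n).2 hsum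
  have hgeo : HasSum (fun k : ℕ => M * (1 / 2 : ℝ) ^ (k + n)) (2 * M * (1 / 2) ^ n) := by
    have h := (hasSum_geometric_two).mul_left (M * (1 / 2 : ℝ) ^ n)
    have e : M * (1 / 2 : ℝ) ^ n * 2 = 2 * M * (1 / 2) ^ n := by ring
    rw [e] at h
    refine h.congr_fun fun k => ?_
    rw [pow_add]
    ring
  exact htail.norm_le_of_bounded hgeo fun k => hbd (k + n)

/-- one variable: the coefficients -/
theorem coef_le {g : ℂ → ℂ} {R M : ℝ} (hR : 0 < R) (hg : DiffContOnCl ℂ g (ball 0 R)) (hM : ∀ z ∈ closedBall (0 : ℂ) R, ‖g z‖ ≤ M) (k : ℕ) :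
    ‖iteratedDeriv k g 0‖ ≤ k.factorial * M / R ^ k :=
  Complex.norm_iteratedDeriv_le_of_forall_mem_sphere_norm_le k hR hg fun z hz => hM z (sphere_subset_closedBall hz)

/-- the partial derivatives -/
def dx (f : ℂ × ℂ → ℂ) (p : ℂ × ℂ) : ℂ := fderiv ℂ f p (1, 0)

def dy (f : ℂ × ℂ → ℂ) (p : ℂ × ℂ) : ℂ := fderiv ℂ f p (0, 1)

theorem dx_an {f : ℂ × ℂ → ℂ} {U : Set (ℂ × ℂ)} (h : AnalyticOnNhd ℂ f U) : AnalyticOnNhd ℂ (dx f) U := fun p hp =>
  ((ContinuousLinearMap.apply ℂ ℂ ((1, 0) : ℂ × ℂ)).analyticAt _).comp (h p hp).fderiv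

theorem dy_an {f : ℂ × ℂ → ℂ} {U : Set (ℂ × ℂ)} (h : AnalyticOnNhd ℂ f U) : AnalyticOnNhd ℂ (dy f) U := fun p hp =>
  ((ContinuousLinearMap.apply ℂ ℂ ((0, 1) : ℂ × ℂ)).analyticAt _).comp (h p hp).fderiv

theorem dx_iter_an {f : ℂ × ℂ → ℂ} {U : Set (ℂ × ℂ)} (h : AnalyticOnNhd ℂ f U) (k : ℕ) : AnalyticOnNhd ℂ (dx^[k] f) U := by
  induction k with
  | zero => exact h
  | succ k ih =>
    rw [Function.iterate_succ_apply']
    exact dx_an ih

theorem dy_iter_an {f : ℂ × ℂ → ℂ} {U : Set (ℂ × ℂ)} (h : AnalyticOnNhd ℂ f U) (k : ℕ) : AnalyticOnNhd ℂ (dy^[k] f) U := by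
  induction k with
  | zero => exact h
  | succ k ih =>
    rw [Function.iterate_succ_apply']
    exact dy_an ih

/-- the derivatives on the lines -/
theorem iter_x {f : ℂ × ℂ → ℂ} {U : Set (ℂ × ℂ)} (hU : IsOpen U) (h : AnalyticOnNhd ℂ f U) (k : ℕ) {t : ℂ} :
    ∀ s : ℂ, (s, t) ∈ U → iteratedDeriv k (fun s => f (s, t)) s = (dx^[k] f) (s, t) := by
  induction k with
  | zero =>
    intro s _
    rw [iteratedDeriv_zero]
    rfl
  | succ k ih =>
    intro s hs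
    rw [iteratedDeriv_succ, Function.iterate_succ_apply']
    have hc : ContinuousAt (fun s : ℂ => ((s, t) : ℂ × ℂ)) s := (continuous_id.prodMk continuous_const).continuousAt
    have h1 : iteratedDeriv k (fun s => f (s, t)) =ᶠ[𝓝 s] fun s => (dx^[k] f) (s, t) := by
      filter_upwards [hc.preimage_mem_nhds (hU.mem_nhds hs)] with y hy
      exact ih y hy
    rw [h1.deriv_eq]
    have h2 : HasFDerivAt (dx^[k] f) (fderiv ℂ (dx^[k] f) (s, t)) (s, t) := (dx_iter_an h k _ hs).differentiableAt.hasFDerivAt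
    have h3 : HasDerivAt (fun s : ℂ => ((s, t) : ℂ × ℂ)) (1, 0) s := (hasDerivAt_id s).prodMk (hasDerivAt_const s t)
    exact (h2.comp_hasDerivAt s h3).deriv

theorem iter_y {f : ℂ × ℂ → ℂ} {U : Set (ℂ × ℂ)} (hU : IsOpen U) (h : AnalyticOnNhd ℂ f U) (k : ℕ) {s : ℂ} :
    ∀ t : ℂ, (s, t) ∈ U → iteratedDeriv k (fun t => f (s, t)) t = (dy^[k] f) (s, t) := by
  induction k with
  | zero =>
    intro t _
    rw [iteratedDeriv_zero]
    rfl
  | succ k ih =>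
    intro t ht
    rw [iteratedDeriv_succ, Function.iterate_succ_apply']
    have hc : ContinuousAt (fun t : ℂ => ((s, t) : ℂ × ℂ)) t := (continuous_const.prodMk continuous_id).continuousAt
    have h1 : iteratedDeriv k (fun t => f (s, t)) =ᶠ[𝓝 t] fun t => (dy^[k] f) (s, t) := by
      filter_upwards [hc.preimage_mem_nhds (hU.mem_nhds ht)] with y hy
      exact ih y hy
    rw [h1.deriv_eq]
    have h2 : HasFDerivAt (dy^[k] f) (fderiv ℂ (dy^[k] f) (s, t)) (s, t) := (dy_iter_an h k _ ht).differentiableAt.hasFDerivAt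
    have h3 : HasDerivAt (fun t : ℂ => ((s, t) : ℂ × ℂ)) (0, 1) t := (hasDerivAt_const t s).prodMk (hasDerivAt_id t)
    exact (h2.comp_hasDerivAt t h3).deriv

/-- **Schwarz lemma of order `n`.** -/
theorem schwarz_two {f : ℂ × ℂ → ℂ} {U : Set (ℂ × ℂ)} (hU : IsOpen U) (h : AnalyticOnNhd ℂ f U) {ρ M : ℝ} (hρ : 0 < ρ)
    (hUρ : closedBall (0 : ℂ × ℂ) (2 * ρ) ⊆ U) (hM : ∀ p ∈ closedBall (0 : ℂ × ℂ) (2 * ρ), ‖f p‖ ≤ M) (n : ℕ)
    (h0 : ∀ k < n, ∀ l < n, (dy^[l] (dx^[k] f)) 0 = 0) {p : ℂ × ℂ} (hp : ‖p‖ ≤ ρ) : ‖f p‖ ≤ 6 * M * (1 / 2) ^ n := by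
  obtain ⟨s, t⟩ := p
  have hst := hp
  rw [Prod.norm_def, max_le_iff] at hst
  obtain ⟨hs, ht⟩ := hst
  simp only at hs ht
  have hM0 : 0 ≤ M := (norm_nonneg _).trans (hM 0 (mem_closedBall_self (by positivity)))
  have h2 : (0 : ℝ) < 2 * ρ := by positivity
  have hmem : ∀ a b : ℂ, ‖a‖ ≤ 2 * ρ → ‖b‖ ≤ 2 * ρ → ((a, b) : ℂ × ℂ) ∈ closedBall (0 : ℂ × ℂ) (2 * ρ) := by
    intro a b ha hb
    rw [mem_closedBall, dist_zero_right, Prod.norm_def]
    exact max_le ha hb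
  -- the functions on horizontal lines
  have hx : ∀ b : ℂ, ‖b‖ ≤ 2 * ρ → DiffContOnCl ℂ (fun a => f (a, b)) (ball 0 (2 * ρ)) := by
    intro b hb
    have h1 : AnalyticOnNhd ℂ (fun a : ℂ => f (a, b)) (closedBall 0 (2 * ρ)) := fun a ha =>
      AnalyticAt.fun_comp (h (a, b) (hUρ (hmem a b (by rwa [mem_closedBall, dist_zero_right] at ha) hb)))
        (analyticAt_id.prod analyticAt_const)
    refine DifferentiableOn.diffContOnCl ?_
    rw [closure_ball _ h2.ne']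
    exact h1.differentiableOn
  have hy : ∀ k, DiffContOnCl ℂ (fun b => (dx^[k] f) (0, b)) (ball 0 (2 * ρ)) := by
    intro k
    have h1 : AnalyticOnNhd ℂ (fun b : ℂ => (dx^[k] f) (0, b)) (closedBall 0 (2 * ρ)) := fun b hb =>
      AnalyticAt.fun_comp (dx_iter_an h k (0, b) (hUρ (hmem 0 b (by rw [norm_zero]; exact h2.le) (by rwa [mem_closedBall, dist_zero_right] at hb))))
        (analyticAt_const.prod analyticAt_id)
    refine DifferentiableOn.diffContOnCl ?_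
    rw [closure_ball _ h2.ne']
    exact h1.differentiableOn
  have hxk : ∀ k (b : ℂ), ‖b‖ ≤ 2 * ρ → iteratedDeriv k (fun a => f (a, b)) 0 = (dx^[k] f) (0, b) := fun k b hb =>
    iter_x hU h k 0 (hUρ (hmem 0 b (by rw [norm_zero]; exact h2.le) hb))
  have hak : ∀ k (b : ℂ), ‖b‖ ≤ 2 * ρ → ‖(dx^[k] f) (0, b)‖ ≤ k.factorial * M / (2 * ρ) ^ k := by
    intro k b hb
    rw [← hxk k b hb]
    exact coef_le h2 (hx b hb) (fun a ha => hM _ (hmem a b (by rwa [mem_closedBall, dist_zero_right] at ha) hb)) k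
  have hak2 : ∀ k < n, ‖(dx^[k] f) (0, t)‖ ≤ 2 * (k.factorial * M / (2 * ρ) ^ k) * (1 / 2) ^ n := by
    intro k hk
    have h3 := taylor_one hρ (hy k) (M := k.factorial * M / (2 * ρ) ^ k) (fun b hb => hak k b (by rwa [mem_closedBall, dist_zero_right] at hb)) n ht
    have h4 : ∑ l ∈ Finset.range n, ((l.factorial : ℂ))⁻¹ • t ^ l • iteratedDeriv l (fun b => (dx^[k] f) (0, b)) 0 = 0 := by
      refine Finset.sum_eq_zero fun l hl => ?_
      rw [iter_y hU (dx_iter_an h k) l 0 (hUρ (mem_closedBall_self h2.le))]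
      have h5 := h0 k hk l (Finset.mem_range.1 hl)
      have h6 : ((0, 0) : ℂ × ℂ) = 0 := rfl
      rw [h6, h5, smul_zero, smul_zero]
    rwa [h4, sub_zero] at h3
  have h3 := taylor_one hρ (hx t (by linarith)) (M := M) (fun a ha => hM _ (hmem a t (by rwa [mem_closedBall, dist_zero_right] at ha) (by linarith))) n hs
  have h4 : ‖∑ k ∈ Finset.range n, ((k.factorial : ℂ))⁻¹ • s ^ k • iteratedDeriv k (fun a => f (a, t)) 0‖ ≤ 4 * M * (1 / 2) ^ n := by
    calc ‖∑ k ∈ Finset.range n, ((k.factorial : ℂ))⁻¹ • s ^ k • iteratedDeriv k (fun a => f (a, t)) 0‖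
        ≤ ∑ k ∈ Finset.range n, ‖((k.factorial : ℂ))⁻¹ • s ^ k • iteratedDeriv k (fun a => f (a, t)) 0‖ := norm_sum_le _ _
      _ ≤ ∑ k ∈ Finset.range n, (2 * M * (1 / 2) ^ n) * (1 / 2) ^ k := by
        refine Finset.sum_le_sum fun k hk => ?_
        rw [hxk k t (by linarith), norm_smul, norm_smul, norm_inv, norm_pow, Complex.norm_natCast]
        have hf : (0 : ℝ) < k.factorial := by positivity
        calc (k.factorial : ℝ)⁻¹ * (‖s‖ ^ k * ‖(dx^[k] f) (0, t)‖)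
            ≤ (k.factorial : ℝ)⁻¹ * (ρ ^ k * (2 * (k.factorial * M / (2 * ρ) ^ k) * (1 / 2) ^ n)) := by
              gcongr
              exact hak2 k (Finset.mem_range.1 hk)
          _ = (2 * M * (1 / 2) ^ n) * (1 / 2) ^ k := by
            have e1 : (2 * ρ) ^ k = 2 ^ k * ρ ^ k := mul_pow _ _ _
            have e2 : (1 / 2 : ℝ) ^ k = (2 ^ k)⁻¹ := by rw [one_div, inv_pow]
            rw [e1, e2]
            field_simp
      _ = (2 * M * (1 / 2) ^ n) * ∑ k ∈ Finset.range n, (1 / 2 : ℝ) ^ k := by rw [Finset.mul_sum]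
      _ ≤ (2 * M * (1 / 2) ^ n) * 2 := by
        gcongr
        have := (hasSum_geometric_two).summable.sum_le_tsum (Finset.range n) fun k _ => by positivity
        rwa [hasSum_geometric_two.tsum_eq] at this
      _ = 4 * M * (1 / 2) ^ n := by ring
  have h5 := norm_le_norm_sub_add (f (s, t)) (∑ k ∈ Finset.range n, ((k.factorial : ℂ))⁻¹ • s ^ k • iteratedDeriv k (fun a => f (a, t)) 0)
  linarith

/-- linearity -/
theorem dx_sum {ι : Type} [Fintype ι] {f : ι → ℂ × ℂ → ℂ} {U : Set (ℂ × ℂ)} (hU : IsOpen U) (h : ∀ i, AnalyticOnNhd ℂ (f i) U) (c : ι → ℂ)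
    {g : ℂ × ℂ → ℂ} (hg : ∀ p ∈ U, g p = ∑ i, c i * f i p) : ∀ p ∈ U, dx g p = ∑ i, c i * dx (f i) p := by
  intro p hp
  have h1 : g =ᶠ[𝓝 p] fun p => ∑ i, c i * f i p := by
    filter_upwards [hU.mem_nhds hp] with y hy
    exact hg y hy
  rw [dx, h1.fderiv_eq]
  have h2 : HasFDerivAt (fun p => ∑ i, c i * f i p) (∑ i, c i • fderiv ℂ (f i) p) p :=
    HasFDerivAt.fun_sum fun i _ => ((h i p hp).differentiableAt.hasFDerivAt).const_mul (c i)
  rw [h2.fderiv]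
  simp only [sum_apply, smul_apply, smul_eq_mul]
  rfl

theorem dy_sum {ι : Type} [Fintype ι] {f : ι → ℂ × ℂ → ℂ} {U : Set (ℂ × ℂ)} (hU : IsOpen U) (h : ∀ i, AnalyticOnNhd ℂ (f i) U) (c : ι → ℂ)
    {g : ℂ × ℂ → ℂ} (hg : ∀ p ∈ U, g p = ∑ i, c i * f i p) : ∀ p ∈ U, dy g p = ∑ i, c i * dy (f i) p := by
  intro p hp
  have h1 : g =ᶠ[𝓝 p] fun p => ∑ i, c i * f i p := by
    filter_upwards [hU.mem_nhds hp] with y hy
    exact hg y hy
  rw [dy, h1.fderiv_eq]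
  have h2 : HasFDerivAt (fun p => ∑ i, c i * f i p) (∑ i, c i • fderiv ℂ (f i) p) p :=
    HasFDerivAt.fun_sum fun i _ => ((h i p hp).differentiableAt.hasFDerivAt).const_mul (c i)
  rw [h2.fderiv]
  simp only [sum_apply, smul_apply, smul_eq_mul]
  rfl

theorem jet_sum {ι : Type} [Fintype ι] {f : ι → ℂ × ℂ → ℂ} {U : Set (ℂ × ℂ)} (hU : IsOpen U) (h : ∀ i, AnalyticOnNhd ℂ (f i) U) (c : ι → ℂ)
    {g : ℂ × ℂ → ℂ} (hg : ∀ p ∈ U, g p = ∑ i, c i * f i p) (k l : ℕ) :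
    ∀ p ∈ U, (dy^[l] (dx^[k] g)) p = ∑ i, c i * (dy^[l] (dx^[k] (f i))) p := by
  have h1 : ∀ p ∈ U, (dx^[k] g) p = ∑ i, c i * (dx^[k] (f i)) p := by
    induction k with
    | zero => exact hg
    | succ k ih =>
      intro p hp
      simp only [Function.iterate_succ_apply']
      exact dx_sum hU (fun i => dx_iter_an (h i) k) c ih p hp
  induction l with
  | zero => exact h1
  | succ l ih =>
    intro p hp
    simp only [Function.iterate_succ_apply']
    exact dy_sum hU (fun i => dy_iter_an (dx_iter_an (h i) k) l) c ih p hp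

end Pool.Agent.E1
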