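import Pool.Agent.E1.Defs
import Pool.Agent.H17BP.Art
import Pool.Agent.H17BP.Conv
import Pool.Agent.H17EF.Count
import Pool.Agent.H17EF.Bridge
import Pool.Agent.SG.Sec

/-!
# E1 Stub: two coprime symmetric differentials (statements of the modules; never import this file in a hand-in)

Chow's theorem for a curve in a surface, given locally by one equation, and the resultant of two symmetric differentials.
-/

set_option autoImplicit false

open Topology Filter Metric MvPolynomial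

noncomputable section

namespace Pool.Agent.E1.Stub

open Pool.Agent.H36.BP (EN)
open Pool.Agent.H14.PP (IsCone Tan)
open Pool.Agent.H17 (PN VanishesAt HolomorphicInto)
open Pool.Agent.H17BP (Surface IsChart LocalEq ResN)
open Pool.Agent.H17EF (projVar coneE)
open Pool.Agent.H17LG.Variety (FunField)
open Pool.Agent.H62.FC (Homog)
open Pool.Agent.AD (SymDiff TangentTo)

variable {N : ℕ}

/-- MODULE Disc (helper82, helper27): the zeros of a germ are covered by finitely many discs.  Induction on `n`; `Mono`: the two axes (in the coordinates);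
blow-up: the exceptional curve is compact. -/
theorem disc_cover (n : ℕ) {g : ℂ × ℂ → ℂ} (hg : ResN n g) {W : Set (ℂ × ℂ)} (hW : W ∈ 𝓝 (0 : ℂ × ℂ)) :
    ∃ (r : ℕ) (c : Fin r → ℂ → ℂ × ℂ), (∀ i, AnalyticOnNhd ℂ (c i) (closedBall 0 1)) ∧
      (∀ i, ∀ z ∈ closedBall (0 : ℂ) 1, c i z ∈ W ∧ g (c i z) = 0) ∧
      ∀ᶠ p in 𝓝 (0 : ℂ × ℂ), g p = 0 → ∃ i, ∃ z ∈ closedBall (0 : ℂ) (1 / 2), c i z = p := by
  sorry

/-- MODULE Chow (helper9, helper11): a curve in the surface which is given locally by one equation lies in an algebraic curve.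
`H17BP.exists_resN`, `disc_cover` at every point of the compact set `Z ∩ sphere`, `H17EF.exists_form_of_conditions` (`K d` conditions: the first `K₀ d` Taylor
coefficients of `Q ∘ γ i` at `0` for the finitely many discs `γ i`), Schwarz. -/
theorem exists_form_of_analytic {P : Ideal (MvPolynomial (Fin (N + 1)) ℂ)} [P.IsPrime] {z : Fin 2 → FunField P} (hz : IsTranscendenceBasis ℂ z)
    (hX : Surface (coneE P)) {Z : Set (EN N)} (hZX : Z ⊆ coneE P) (hZs : ∀ x ∈ Z, ∀ c : ℂ, c ≠ 0 → c • x ∈ Z)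
    (hloc : ∀ x ∈ coneE P, ∃ (σ : ℂ × ℂ → EN N) (τ : EN N → ℂ × ℂ) (g : ℂ × ℂ → ℂ), IsChart (coneE P) σ τ ∧ σ 0 = x ∧ LocalEq Z σ g ∧
      ¬ ∀ᶠ p in 𝓝 (0 : ℂ × ℂ), g p = 0) :
    ∃ (R : MvPolynomial (Fin (N + 1)) ℂ) (d : ℕ), R.IsHomogeneous d ∧ R ∉ P ∧ ∀ x ∈ Z, eval x.ofLp R = 0 := by
  sorry

/-- MODULE Res (helper48): the resultant (formal degrees `m₁`, `m₂`) of the polynomials `s ↦ θ i (σ p) (∂₁σ + s ∂₂σ)`. -/
theorem localEq_comNull {X : Set (EN N)} (hX : Surface X) {m₁ m₂ : ℕ} (h₁ : 1 ≤ m₁) (h₂ : 1 ≤ m₂) (θ₁ : SymDiff X m₁) (θ₂ : SymDiff X m₂)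
    {σ : ℂ × ℂ → EN N} {τ : EN N → ℂ × ℂ} (hσ : IsChart X σ τ) : ∃ g : ℂ × ℂ → ℂ, LocalEq (ComNull θ₁ θ₂) σ g := by
  sorry

/-- MODULE Cor (helper51): a nonconstant curve which is tangent to both differentials lies in `{R = 0}`.  (`F' z ∉ ℂ F z` off a discrete set: otherwise the
curve is constant.) -/
theorem vanishes_of_tangent {P : Ideal (MvPolynomial (Fin (N + 1)) ℂ)} (hP : Homog P) (hc : IsCone (coneE P)) {m₁ m₂ : ℕ}
    (θ₁ : SymDiff (coneE P) m₁) (θ₂ : SymDiff (coneE P) m₂) {R : MvPolynomial (Fin (N + 1)) ℂ} {d : ℕ} (hR : R.IsHomogeneous d)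
    (hZ : ∀ x ∈ ComNull θ₁ θ₂, eval x.ofLp R = 0) {f : ℂ → PN N} (hf : HolomorphicInto f Set.univ) (hfX : ∀ z, f z ∈ projVar P)
    (hne : ∃ z w, f z ≠ f w) (h₁ : TangentTo θ₁ f) (h₂ : TangentTo θ₂ f) : ∀ z, VanishesAt R (f z) := by
  sorry

end Pool.Agent.E1.Stub
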